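import Pool.Agent.W5h14.Spr.Core

/-!
# Counting edges in the classes
-/

set_option autoImplicit false
set_option linter.unusedSectionVars false

namespace Pool.Agent.W5h14.Spr

open Finset Pool.Agent.Helper879.ECD

variable {V E : Type} [Fintype V] [DecidableEq V] [DecidableEq E]

/-- the edges with exactly one end in `A` -/
def Sr (s t : E → V) (D : Finset E) (A : Finset V) : Finset E :=
  D.filter (fun e => ¬ (s e ∈ A ↔ t e ∈ A))

/-- the end outside of `A` -/
def ou (s t : E → V) (A : Finset V) (e : E) : V := if s e ∈ A then t e else s e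

/-- the end in `A` -/
def iu (s t : E → V) (A : Finset V) (e : E) : V := if s e ∈ A then s e else t e

section
variable {s t : E → V} {D : Finset E} {U A : Finset V}

theorem Sr_spec {e : E} (he : e ∈ Sr s t D A) : e ∈ D ∧ iu s t A e ∈ A ∧ ou s t A e ∉ A ∧
    ic s t e = dv (ou s t A e) (iu s t A e) ∧
    ((s e = iu s t A e ∧ t e = ou s t A e) ∨ (s e = ou s t A e ∧ t e = iu s t A e)) := by
  unfold Sr at he
  rw [Finset.mem_filter] at he
  unfold iu ou ic
  by_cases h : s e ∈ A
  · have h2 : t e ∉ A := fun h2 => he.2 ⟨fun _ => h2, fun _ => h⟩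
    rw [if_pos h, if_pos h]
    exact ⟨he.1, h, h2, dv_comm _ _, Or.inl ⟨rfl, rfl⟩⟩
  · have h2 : t e ∈ A := by
      by_contra h2
      exact he.2 ⟨fun h3 => absurd h3 h, fun h3 => absurd h3 h2⟩
    rw [if_neg h, if_neg h]
    exact ⟨he.1, h2, h, rfl, Or.inr ⟨rfl, rfl⟩⟩

variable {M1 M2 : Submodule (ZMod 2) (V → ZMod 2)} {A' : Finset V}

theorem cls_mem {X : Finset V} (hX : X ∈ cls M1 A') {u : V} (hu : u ∈ X) :
    u ∈ A' ∧ cl M1 A' u = X := by
  obtain ⟨v, hv, rfl⟩ := Finset.mem_image.1 hX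
  rw [mem_cl] at hu
  exact ⟨hu.1, (cl_eq hu.2).symm⟩

theorem cl_mem {u : V} (hu : u ∈ A') : u ∈ cl M1 A' u ∧ cl M1 A' u ∈ cls M1 A' :=
  ⟨mem_cl.2 ⟨hu, Rl.refl _ _⟩, Finset.mem_image_of_mem _ hu⟩

/-- the sum of the sizes of the classes -/
theorem sum_size : ∑ X ∈ cls M1 A', X.card = A'.card := by
  classical
  rw [Finset.card_eq_sum_card_fiberwise (f := cl M1 A') (t := cls M1 A')
    (fun u hu => (cl_mem (M1 := M1) hu).2)]
  refine Finset.sum_congr rfl fun X hX => ?_
  congr 1
  ext u
  rw [Finset.mem_filter]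
  exact ⟨fun hu => cls_mem hX hu, fun hu => hu.2 ▸ (cl_mem hu.1).1⟩

open Classical in
/-- the edges inside the classes and between the classes -/
theorem sum_in {D' : Finset E} (hD' : D' = De s t D A') :
    ∑ X ∈ cls M1 A', (De s t D X).card + (D'.filter (fun e => ¬ Rl M1 (s e) (t e))).card =
      D'.card := by
  have h1 : (D'.filter (fun e => Rl M1 (s e) (t e))).card =
      ∑ X ∈ cls M1 A', (De s t D X).card := by
    have hmem : ∀ e, e ∈ D' ↔ e ∈ D ∧ s e ∈ A' ∧ t e ∈ A' := by
      intro e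
      rw [hD']
      unfold De
      rw [Finset.mem_filter]
    rw [Finset.card_eq_sum_card_fiberwise (f := fun e => cl M1 A' (s e)) (t := cls M1 A')
      (fun e he => (cl_mem (M1 := M1) ((hmem e).1 (Finset.mem_filter.1 he).1).2.1).2)]
    refine Finset.sum_congr rfl fun X hX => ?_
    congr 1
    ext e
    unfold De
    rw [Finset.mem_filter, Finset.mem_filter, Finset.mem_filter, hmem]
    constructor
    · rintro ⟨⟨⟨h1, h2, h3⟩, h4⟩, h5⟩
      refine ⟨h1, ?_, ?_⟩
      · rw [← h5]; exact mem_cl.2 ⟨h2, Rl.refl _ _⟩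
      · rw [← h5]; exact mem_cl.2 ⟨h3, h4⟩
    · rintro ⟨h1, h2, h3⟩
      obtain ⟨h4, h5⟩ := cls_mem hX h2
      obtain ⟨h6, h7⟩ := cls_mem hX h3
      exact ⟨⟨⟨h1, h4, h6⟩, rl_of_cl h6 (h5.trans h7.symm)⟩, h5⟩
  rw [← h1]
  exact Finset.card_filter_add_card_filter_not _

/-- the number of the edges of `St` with an end in `X` -/
def kk (s t : E → V) (A : Finset V) (St : Finset E) (X : Finset V) : ℕ :=
  (St.filter (fun e => ou s t A e ∈ X)).card

theorem sum_kk {St : Finset E} (hSt : ∀ e ∈ St, ou s t A e ∈ A') :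
    ∑ X ∈ cls M1 A', kk s t A St X = St.card := by
  classical
  rw [Finset.card_eq_sum_card_fiberwise (s := St) (f := fun e => cl M1 A' (ou s t A e))
    (t := cls M1 A') (fun e he => (cl_mem (M1 := M1) (hSt e he)).2)]
  refine Finset.sum_congr rfl fun X hX => ?_
  unfold kk
  congr 1
  ext e
  rw [Finset.mem_filter, Finset.mem_filter]
  constructor
  · rintro ⟨h1, h2⟩
    exact ⟨h1, (cls_mem hX h2).2⟩
  · rintro ⟨h1, h2⟩
    refine ⟨h1, ?_⟩
    rw [← h2]
    exact (cl_mem (hSt e h1)).1

open Classical in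
/-- the total count -/
theorem total {D' St : Finset E} (hD' : D' = De s t D A') (hSt : ∀ e ∈ St, ou s t A e ∈ A')
    (hX : ∀ X ∈ cls M1 A', (De s t D X).card + kk s t A St X +
      (if kk s t A St X = 0 then 2 else 1) ≤ 2 * X.card) :
    D'.card + St.card + (cls M1 A').card +
      ((cls M1 A').filter (fun X => kk s t A St X = 0)).card ≤
        2 * A'.card + (D'.filter (fun e => ¬ Rl M1 (s e) (t e))).card := by
  have h1 := sum_in (M1 := M1) hD'
  have h2 := sum_kk (M1 := M1) hSt
  have h3 := sum_size (M1 := M1) (A' := A')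
  have h4 := Finset.sum_le_sum hX
  rw [Finset.sum_add_distrib, Finset.sum_add_distrib, ← Finset.mul_sum, h2, h3] at h4
  have h5 : ∑ X ∈ cls M1 A', (if kk s t A St X = 0 then 2 else 1) = (cls M1 A').card +
      ((cls M1 A').filter (fun X => kk s t A St X = 0)).card := by
    rw [Finset.card_filter, Finset.card_eq_sum_ones, ← Finset.sum_add_distrib]
    refine Finset.sum_congr rfl fun X _ => ?_
    split_ifs <;> rfl
  rw [h5] at h4
  omega

open Classical in
/-- the number of the coarse classes -/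
theorem coarse {St : Finset E} (hU : U = A ∪ A') (hM : M1 ≤ M2)
    (hSt : ∀ e ∈ St, iu s t A e ∈ A ∧ ic s t e = dv (ou s t A e) (iu s t A e) ∧ ic s t e ∈ M2) :
    (cls M2 U).card ≤ (A.image (cl M2 U)).card +
      ((cls M1 A').filter (fun X => kk s t A St X = 0)).card := by
  set T := A'.filter (fun u => kk s t A St (cl M1 A' u) = 0) with hT
  have h1 : cls M2 U ⊆ A.image (cl M2 U) ∪ T.image (cl M2 U) := by
    intro X hX
    obtain ⟨u, hu, rfl⟩ := Finset.mem_image.1 hX
    rw [hU, Finset.mem_union] at hu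
    rw [Finset.mem_union]
    rcases hu with hu | hu
    · exact Or.inl (Finset.mem_image_of_mem _ hu)
    · by_cases hk : kk s t A St (cl M1 A' u) = 0
      · exact Or.inr (Finset.mem_image_of_mem _ (Finset.mem_filter.2 ⟨hu, hk⟩))
      · left
        obtain ⟨e, he⟩ := Finset.card_ne_zero.1 hk
        rw [Finset.mem_filter, mem_cl] at he
        obtain ⟨he1, he2, he3⟩ := he
        obtain ⟨g1, g2, g3⟩ := hSt e he1
        have h4 : Rl M2 u (iu s t A e) := by
          refine (he3.mono hM).trans ?_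
          unfold Rl
          rw [← g2]
          exact g3
        exact Finset.mem_image.2 ⟨_, g1, (cl_eq h4).symm⟩
  have h2 : (T.image (cl M2 U)).card ≤ (T.image (cl M1 A')).card := by
    refine card_image_le_image T _ _ fun u _ v hv huv => ?_
    exact cl_eq ((rl_of_cl (Finset.mem_filter.1 hv).1 huv).mono hM)
  have h3 : T.image (cl M1 A') ⊆ (cls M1 A').filter (fun X => kk s t A St X = 0) := by
    intro X hX
    obtain ⟨u, hu, rfl⟩ := Finset.mem_image.1 hX
    rw [hT, Finset.mem_filter] at hu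
    exact Finset.mem_filter.2 ⟨Finset.mem_image_of_mem _ hu.1, hu.2⟩
  have h4 := Finset.card_le_card h3
  have h5 := Finset.card_le_card h1
  have h6 := Finset.card_union_le (A.image (cl M2 U)) (T.image (cl M2 U))
  omega

end

end Pool.Agent.W5h14.Spr
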