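import Pool.Agent.W5h14.Spr.Lin

/-!
# Decompositions into two spanning sets
-/

set_option autoImplicit false
set_option linter.unusedSectionVars false

namespace Pool.Agent.W5h14.Spr

open Finset Pool.Agent.Helper879.ECD

variable {V E : Type} [Fintype V] [DecidableEq V] [DecidableEq E]

/-- the span of incidence vectors -/
abbrev spi (s t : E → V) (R : Finset E) : Submodule (ZMod 2) (V → ZMod 2) :=
  sp (ZMod 2) (ic s t) R

theorem spi_le {s t : E → V} {R : Finset E} {M : Submodule (ZMod 2) (V → ZMod 2)}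
    (h : ∀ e ∈ R, ic s t e ∈ M) : spi s t R ≤ M := by
  unfold spi sp
  rw [Submodule.span_le]
  rintro _ ⟨e, he, rfl⟩
  exact h e (Finset.mem_coe.1 he)

open Classical in
theorem core {s t : E → V} {U A' : Finset V} (hA' : A'.Nonempty) (hAU : A' ⊆ U)
    {D' St : Finset E} (hdisj : Disjoint D' St) (hD' : ∀ e ∈ D', s e ∈ A' ∧ t e ∈ A')
    (hSt : ∀ e ∈ St, s e ∈ U ∧ t e ∈ U) (hI : Ind (ZMod 2) (ic s t) St)
    (hq : ∀ R ⊆ D', (cls (spi s t R) A').card + (cls (spi s t (R ∪ St)) U).card ≤
      (D'.filter (fun e => ¬ Rl (spi s t R) (s e) (t e))).card + 2) :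
    ∃ I J, I ⊆ D' ∧ J ⊆ D' ∧ Disjoint I J ∧ Zs A' ≤ spi s t I ∧ Zs U ≤ spi s t (J ∪ St) := by
  obtain ⟨I, J, R, hI1, hJ1, hR1, hIJ, hI2, hJ2, e1, e2, hcov⟩ := pack3 D' St hdisj hI
  have hU : U.Nonempty := hA'.mono hAU
  refine ⟨I, J, hI1, hJ1, hIJ, ?_⟩
  have f1 := fin_cls (spi s t R) hA'
  have f2 := fin_cls (spi s t (R ∪ St)) hU
  have f3 := hq R hR1
  have c1 := (hI2.subset (Finset.inter_subset_left (s₂ := R))).card
  rw [e1] at c1
  have c2 := (hJ2.subset (Finset.union_subset_union_left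
    (Finset.inter_subset_left (s₁ := J) (s₂ := R)) (t := St))).card
  rw [e2] at c2
  have c3 := hI2.card
  have c4 := hJ2.card
  have hJSt : Disjoint J St := Finset.disjoint_of_subset_left hJ1 hdisj
  have c4' : (J ∪ St).card = J.card + St.card := Finset.card_union_of_disjoint hJSt
  have c2' : (J ∩ R ∪ St).card = (J ∩ R).card + St.card :=
    Finset.card_union_of_disjoint (Finset.disjoint_of_subset_left Finset.inter_subset_left hJSt)
  have c5 : (I \ R).card + (I ∩ R).card = I.card := Finset.card_sdiff_add_card_inter I R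
  have c6 : (J \ R).card + (J ∩ R).card = J.card := Finset.card_sdiff_add_card_inter J R
  have c7 : (D'.filter (fun e => ¬ Rl (spi s t R) (s e) (t e))).card ≤
      (I \ R).card + (J \ R).card := by
    rw [← Finset.card_union_of_disjoint (Finset.disjoint_of_subset_left Finset.sdiff_subset
      (Finset.disjoint_of_subset_right Finset.sdiff_subset hIJ))]
    apply Finset.card_le_card
    intro e he
    rw [Finset.mem_filter] at he
    have heR : e ∉ R := fun h => he.2 (mem_sp (x := ic s t) h)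
    rw [Finset.mem_union, Finset.mem_sdiff, Finset.mem_sdiff]
    rcases hcov e he.1 heR with h | h
    · exact Or.inl ⟨h, heR⟩
    · exact Or.inr ⟨h, heR⟩
  have l1 : spi s t I ≤ Zs A' := spi_le fun e he => dv_mem_Zs (hD' e (hI1 he)).1 (hD' e (hI1 he)).2
  have l2 : spi s t (J ∪ St) ≤ Zs U := spi_le fun e he => by
    rcases Finset.mem_union.1 he with he | he
    · exact dv_mem_Zs (hAU (hD' e (hJ1 he)).1) (hAU (hD' e (hJ1 he)).2)
    · exact dv_mem_Zs (hSt e he).1 (hSt e he).2
  have g1 := Submodule.finrank_mono l1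
  have g2 := Submodule.finrank_mono l2
  have h1 : Module.finrank (ZMod 2) (spi s t I) = Module.finrank (ZMod 2) (Zs A') := by
    unfold spi at *
    omega
  have h2 : Module.finrank (ZMod 2) (spi s t (J ∪ St)) = Module.finrank (ZMod 2) (Zs U) := by
    unfold spi at *
    omega
  exact ⟨(Submodule.eq_of_le_of_finrank_eq l1 h1).ge, (Submodule.eq_of_le_of_finrank_eq l2 h2).ge⟩

/-- the edges of `D` inside `W` -/
def De (s t : E → V) (D : Finset E) (W : Finset V) : Finset E :=
  D.filter (fun e => s e ∈ W ∧ t e ∈ W)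

/-- `U` is a minimal tight set of the edge set `D` -/
structure Tight (s t : E → V) (D : Finset E) (U : Finset V) : Prop where
  four : 4 ≤ U.card
  ends : ∀ e ∈ D, s e ∈ U ∧ t e ∈ U
  nl : ∀ e ∈ D, s e ≠ t e
  card : D.card + 3 = 2 * U.card
  two : ∀ W ⊆ U, W.card = 2 → (De s t D W).card ≤ 1
  many : ∀ W ⊆ U, W ≠ U → 3 ≤ W.card → (De s t D W).card + 4 ≤ 2 * W.card

section
variable {s t : E → V} {D : Finset E} {U : Finset V}

theorem Tight.bd1 (h : Tight s t D U) {W : Finset V} (hW : W ⊆ U) (h1 : 2 ≤ W.card) :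
    (De s t D W).card + 3 ≤ 2 * W.card := by
  by_cases h2 : W.card = 2
  · have := h.two W hW h2
    omega
  · by_cases h3 : W = U
    · subst h3
      have h4 := h.card
      have h5 : (De s t D W).card ≤ D.card := Finset.card_le_card (Finset.filter_subset _ _)
      omega
    · have := h.many W hW h3 (by omega)
      omega

theorem Tight.bd0 (h : Tight s t D U) {W : Finset V} (hW : W ⊆ U) (h1 : 1 ≤ W.card) :
    (De s t D W).card + 2 ≤ 2 * W.card := by
  by_cases h2 : W.card = 1
  · obtain ⟨a, rfl⟩ := Finset.card_eq_one.1 h2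
    have : De s t D {a} = ∅ := by
      unfold De
      rw [Finset.filter_eq_empty_iff]
      rintro e he ⟨h3, h4⟩
      rw [Finset.mem_singleton] at h3 h4
      exact h.nl e he (h3.trans h4.symm)
    rw [this]
    simp
  · have := h.bd1 hW (by omega)
    omega

/-- there are no parallel edges -/
theorem Tight.nopar (h : Tight s t D U) {e e' : E} (he : e ∈ D) (he' : e' ∈ D)
    (h1 : ({s e, t e} : Finset V) = {s e', t e'}) : e = e' := by
  by_contra hne
  have hW : ({s e, t e} : Finset V) ⊆ U := by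
    intro v hv
    rw [Finset.mem_insert, Finset.mem_singleton] at hv
    rcases hv with rfl | rfl
    · exact (h.ends e he).1
    · exact (h.ends e he).2
  have h2 := h.two _ hW (Finset.card_pair (h.nl e he))
  have h3 : ({e, e'} : Finset E) ⊆ De s t D {s e, t e} := by
    intro x hx
    rw [Finset.mem_insert, Finset.mem_singleton] at hx
    unfold De
    rw [Finset.mem_filter]
    rcases hx with rfl | rfl
    · exact ⟨he, by simp, by simp⟩
    · refine ⟨he', ?_, ?_⟩
      · rw [h1]; simp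
      · rw [h1]; simp
  have h4 := Finset.card_le_card h3
  rw [Finset.card_pair hne] at h4
  omega

/-- there is no triangle -/
theorem Tight.notri (h : Tight s t D U) {e e' g : E} (he : e ∈ D) (he' : e' ∈ D) (hg : g ∈ D)
    (h1 : e ≠ e') (h2 : e ≠ g) (h3 : e' ≠ g) {W : Finset V} (hW : W.card ≤ 3)
    (w1 : s e ∈ W ∧ t e ∈ W) (w2 : s e' ∈ W ∧ t e' ∈ W) (w3 : s g ∈ W ∧ t g ∈ W) : False := by
  have h4 : ({e, e', g} : Finset E) ⊆ De s t D (W ∩ U) := by
    intro x hx
    simp only [Finset.mem_insert, Finset.mem_singleton] at hx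
    unfold De
    rw [Finset.mem_filter, Finset.mem_inter, Finset.mem_inter]
    rcases hx with rfl | rfl | rfl
    · exact ⟨he, ⟨w1.1, (h.ends _ he).1⟩, ⟨w1.2, (h.ends _ he).2⟩⟩
    · exact ⟨he', ⟨w2.1, (h.ends _ he').1⟩, ⟨w2.2, (h.ends _ he').2⟩⟩
    · exact ⟨hg, ⟨w3.1, (h.ends _ hg).1⟩, ⟨w3.2, (h.ends _ hg).2⟩⟩
  have h5 := Finset.card_le_card h4
  have h6 : ({e, e', g} : Finset E).card = 3 := Finset.card_eq_three.2 ⟨e, e', g, h1, h2, h3, rfl⟩
  have h7 : (W ∩ U).card ≤ 3 := (Finset.card_le_card Finset.inter_subset_left).trans hW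
  have h8 : W ∩ U ≠ U := by
    intro h9
    have := h.four
    rw [h9] at h7
    omega
  have h9 : 1 ≤ (W ∩ U).card := Finset.card_pos.2
    ⟨s e, Finset.mem_inter.2 ⟨w1.1, (h.ends _ he).1⟩⟩
  by_cases h10 : (W ∩ U).card = 3
  · have := h.many _ Finset.inter_subset_right h8 (by omega)
    omega
  · have := h.bd0 (W := W ∩ U) Finset.inter_subset_right h9
    omega

end

end Pool.Agent.W5h14.Spr
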