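import Pool.Agent.W5h14.Spr.Cnt

/-!
# Decompositions of tight sets
-/

set_option autoImplicit false
set_option linter.unusedSectionVars false

namespace Pool.Agent.W5h14.Spr

open Finset Pool.Agent.Helper879.ECD

variable {V E : Type} [Fintype V] [DecidableEq V] [DecidableEq E]
variable {s t : E → V} {D : Finset E} {U A : Finset V}

theorem ind_Sr (hinj : ∀ e ∈ Sr s t D A, ∀ e' ∈ Sr s t D A, ou s t A e = ou s t A e' → e = e') :
    Ind (ZMod 2) (ic s t) (Sr s t D A) := by
  unfold Ind
  rw [linearIndepOn_finset_iff]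
  intro c hc e he
  have h1 := congrFun hc (ou s t A e)
  rw [Finset.sum_apply, Pi.zero_apply] at h1
  have h2 : ∀ e' ∈ Sr s t D A, (c e' • ic s t e') (ou s t A e) = if e' = e then c e' else 0 := by
    intro e' he'
    obtain ⟨_, g1, _, g2, _⟩ := Sr_spec he'
    obtain ⟨_, _, g4, _, _⟩ := Sr_spec he
    rw [Pi.smul_apply, g2, dv_apply, smul_eq_mul]
    have h3 : ou s t A e ≠ iu s t A e' := fun h => g4 (h ▸ g1)
    rw [if_neg h3, add_zero]
    by_cases h4 : e' = e
    · subst h4; simp
    · rw [if_neg (fun h => h4 (hinj e' he' e he h.symm)), if_neg h4, mul_zero]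
  rw [Finset.sum_congr rfl h2, Finset.sum_ite_eq', if_pos he] at h1
  exact h1

/-- the edges inside `X`, between `X` and `B`, and inside `B` -/
theorem join {X B : Finset V} (hX : ∀ v ∈ X, v ∉ A) (hB : B ⊆ A) :
    (De s t D X).card + ((Sr s t D A).filter (fun e => ou s t A e ∈ X ∧ iu s t A e ∈ B)).card +
      (De s t D B).card ≤ (De s t D (X ∪ B)).card := by
  set P := (Sr s t D A).filter (fun e => ou s t A e ∈ X ∧ iu s t A e ∈ B) with hP
  have hmem : ∀ W e, e ∈ De s t D W ↔ e ∈ D ∧ s e ∈ W ∧ t e ∈ W := by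
    intro W e
    unfold De
    rw [Finset.mem_filter]
  have d1 : Disjoint (De s t D X) P := by
    rw [Finset.disjoint_left]
    intro e h1 h2
    rw [hmem] at h1
    obtain ⟨h3, _⟩ := Finset.mem_filter.1 h2
    unfold Sr at h3
    rw [Finset.mem_filter] at h3
    exact h3.2 ⟨fun h => absurd h (hX _ h1.2.1), fun h => absurd h (hX _ h1.2.2)⟩
  have d2 : Disjoint (De s t D X ∪ P) (De s t D B) := by
    rw [Finset.disjoint_left]
    intro e h1 h2
    rw [hmem] at h2
    rcases Finset.mem_union.1 h1 with h1 | h1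
    · rw [hmem] at h1
      exact hX _ h1.2.1 (hB h2.2.1)
    · obtain ⟨h3, _⟩ := Finset.mem_filter.1 h1
      unfold Sr at h3
      rw [Finset.mem_filter] at h3
      exact h3.2 ⟨fun _ => hB h2.2.2, fun _ => hB h2.2.1⟩
  rw [← Finset.card_union_of_disjoint d1, ← Finset.card_union_of_disjoint d2]
  apply Finset.card_le_card
  intro e he
  rw [hmem, Finset.mem_union, Finset.mem_union]
  rcases Finset.mem_union.1 he with he | he
  · rcases Finset.mem_union.1 he with he | he
    · rw [hmem] at he
      exact ⟨he.1, Or.inl he.2.1, Or.inl he.2.2⟩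
    · obtain ⟨h3, h4, h5⟩ := Finset.mem_filter.1 he
      obtain ⟨g1, _, _, _, g2 | g2⟩ := Sr_spec h3
      · rw [g2.1, g2.2]
        exact ⟨g1, Or.inr h5, Or.inl h4⟩
      · rw [g2.1, g2.2]
        exact ⟨g1, Or.inl h4, Or.inr h5⟩
  · rw [hmem] at he
    exact ⟨he.1, Or.inr he.2.1, Or.inr he.2.2⟩

theorem De_disj_Sr : Disjoint (De s t D (U \ A)) (Sr s t D A) := by
  rw [Finset.disjoint_left]
  intro e h1 h2
  unfold De at h1
  unfold Sr at h2
  rw [Finset.mem_filter] at h1 h2
  rw [Finset.mem_sdiff, Finset.mem_sdiff] at h1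
  exact h2.2 ⟨fun h => absurd h h1.2.1.2, fun h => absurd h h1.2.2.2⟩

theorem De_disj_De : Disjoint (De s t D (U \ A) ∪ Sr s t D A) (De s t D A) := by
  rw [Finset.disjoint_left]
  intro e h1 h2
  unfold De at h2
  rw [Finset.mem_filter] at h2
  rcases Finset.mem_union.1 h1 with h1 | h1
  · unfold De at h1
    rw [Finset.mem_filter, Finset.mem_sdiff] at h1
    exact h1.2.1.2 h2.2.1
  · unfold Sr at h1
    rw [Finset.mem_filter] at h1
    exact h1.2 ⟨fun _ => h2.2.2, fun _ => h2.2.1⟩

theorem D_split (hD : ∀ e ∈ D, s e ∈ U ∧ t e ∈ U) :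
    D = De s t D (U \ A) ∪ Sr s t D A ∪ De s t D A := by
  ext e
  unfold De Sr
  simp only [Finset.mem_union, Finset.mem_filter, Finset.mem_sdiff]
  constructor
  · intro he
    by_cases h1 : s e ∈ A <;> by_cases h2 : t e ∈ A
    · exact Or.inr ⟨he, h1, h2⟩
    · exact Or.inl (Or.inr ⟨he, fun h => h2 (h.1 h1)⟩)
    · exact Or.inl (Or.inr ⟨he, fun h => h1 (h.2 h2)⟩)
    · exact Or.inl (Or.inl ⟨he, ⟨(hD e he).1, h1⟩, ⟨(hD e he).2, h2⟩⟩)
  · rintro ((h | h) | h) <;> exact h.1

theorem card_split (hD : ∀ e ∈ D, s e ∈ U ∧ t e ∈ U) :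
    (De s t D (U \ A)).card + (Sr s t D A).card + (De s t D A).card = D.card := by
  rw [← Finset.card_union_of_disjoint De_disj_Sr, ← Finset.card_union_of_disjoint De_disj_De,
    ← D_split hD]

/-- **decomposition at one vertex** -/
theorem dec_one (h : Tight s t D U) {w : V} (hw : w ∈ U) :
    ∃ I J, I ⊆ De s t D (U \ {w}) ∧ J ⊆ De s t D (U \ {w}) ∧ Disjoint I J ∧
      Zs (U \ {w}) ≤ spi s t I ∧ Zs U ≤ spi s t (J ∪ Sr s t D {w}) := by
  classical
  have hcA : (U \ {w}).card + 1 = U.card := by
    rw [Finset.card_sdiff_of_subset (Finset.singleton_subset_iff.2 hw), Finset.card_singleton]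
    have := Finset.card_pos.2 ⟨w, hw⟩
    omega
  have h4 := h.four
  have hou : ∀ e ∈ Sr s t D {w}, ou s t {w} e ∈ U \ {w} := by
    intro e he
    obtain ⟨g1, g2, g3, _, g4⟩ := Sr_spec he
    rw [Finset.mem_sdiff]
    refine ⟨?_, g3⟩
    rcases g4 with g4 | g4
    · rw [← g4.2]; exact (h.ends e g1).2
    · rw [← g4.1]; exact (h.ends e g1).1
  have hDw : De s t D {w} = ∅ := by
    unfold De
    rw [Finset.filter_eq_empty_iff]
    rintro e he ⟨h1, h2⟩
    rw [Finset.mem_singleton] at h1 h2
    exact h.nl e he (h1.trans h2.symm)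
  have hsplit := card_split (A := {w}) h.ends
  rw [hDw, Finset.card_empty, add_zero] at hsplit
  have hcard := h.card
  refine core (U := U) (A' := U \ {w}) (Finset.card_pos.1 (by omega)) Finset.sdiff_subset De_disj_Sr
    (fun e he => (Finset.mem_filter.1 he).2) (fun e he => h.ends e (Sr_spec he).1) ?_ ?_
  · refine ind_Sr fun e he e' he' hee => ?_
    obtain ⟨g1, g2, g3, _, g4⟩ := Sr_spec he
    obtain ⟨g1', g2', g3', _, g4'⟩ := Sr_spec he'
    rw [Finset.mem_singleton] at g2 g2'
    refine h.nopar g1 g1' ?_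
    rcases g4 with g4 | g4 <;> rcases g4' with g4' | g4' <;>
      rw [g4.1, g4.2, g4'.1, g4'.2, g2, g2', hee] <;> simp [Finset.pair_comm]
  · intro R hR
    have hM : spi s t R ≤ spi s t (R ∪ Sr s t D {w}) := sp_mono Finset.subset_union_left
    have t1 := total (s := s) (t := t) (D := D) (A := {w}) (A' := U \ {w}) (M1 := spi s t R)
      (St := Sr s t D {w}) rfl hou (by
        intro X hX
        have hXA : X ⊆ U \ {w} := fun u hu => (cls_mem hX hu).1
        have hXw : w ∉ X := fun hu => (Finset.mem_sdiff.1 (hXA hu)).2 (Finset.mem_singleton_self _)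
        have hX1 : 1 ≤ X.card := by
          obtain ⟨u, hu, rfl⟩ := Finset.mem_image.1 hX
          exact Finset.card_pos.2 ⟨u, mem_cl.2 ⟨hu, Rl.refl _ _⟩⟩
        have hXU : X ⊆ U := hXA.trans Finset.sdiff_subset
        by_cases hk : kk s t {w} (Sr s t D {w}) X = 0
        · rw [if_pos hk, hk]
          have := h.bd0 hXU hX1
          omega
        · rw [if_neg hk]
          have j1 := join (s := s) (t := t) (D := D) (A := {w}) (X := X) (B := {w})
            (fun v hv => (Finset.mem_sdiff.1 (hXA hv)).2) (Finset.Subset.refl _)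
          have j2 : kk s t {w} (Sr s t D {w}) X =
              ((Sr s t D {w}).filter (fun e => ou s t {w} e ∈ X ∧ iu s t {w} e ∈ ({w} : Finset V))).card := by
            unfold kk
            congr 1
            ext e
            rw [Finset.mem_filter, Finset.mem_filter]
            exact ⟨fun h => ⟨h.1, h.2, (Sr_spec h.1).2.1⟩, fun h => ⟨h.1, h.2.1⟩⟩
          have j3 : (X ∪ {w}).card = X.card + 1 := by
            rw [Finset.card_union_of_disjoint (Finset.disjoint_singleton_right.2 hXw),
              Finset.card_singleton]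
          have j4 := h.bd1 (W := X ∪ {w})
            (Finset.union_subset hXU (Finset.singleton_subset_iff.2 hw)) (by omega)
          omega)
    have t2 := coarse (s := s) (t := t) (A := {w}) (A' := U \ {w}) (U := U)
      (M1 := spi s t R) (M2 := spi s t (R ∪ Sr s t D {w})) (St := Sr s t D {w})
      (by rw [Finset.union_sdiff_of_subset (Finset.singleton_subset_iff.2 hw)]) hM
      (fun e he => ⟨(Sr_spec he).2.1, (Sr_spec he).2.2.2.1,
        mem_sp (x := ic s t) (Finset.mem_union_right _ he)⟩)
    rw [Finset.image_singleton, Finset.card_singleton] at t2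
    have t3 : 0 < (cls (spi s t R) (U \ {w})).card := by
      obtain ⟨u, hu⟩ := Finset.card_pos.1 (show 0 < (U \ {w}).card by omega)
      exact Finset.card_pos.2 ⟨_, (cl_mem hu).2⟩
    omega

/-- **decomposition at one edge** -/
theorem dec_two (h : Tight s t D U) {g : E} (hg : g ∈ D) :
    ∃ I J, I ⊆ De s t D (U \ {s g, t g}) ∧ J ⊆ De s t D (U \ {s g, t g}) ∧ Disjoint I J ∧
      Zs (U \ {s g, t g}) ≤ spi s t I ∧ Zs U ≤ spi s t (J ∪ Sr s t D {s g, t g}) := by
  classical
  set A : Finset V := {s g, t g} with hA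
  have hgn := h.nl g hg
  have hAc : A.card = 2 := Finset.card_pair hgn
  have hAU : A ⊆ U := by
    intro v hv
    rw [hA, Finset.mem_insert, Finset.mem_singleton] at hv
    rcases hv with rfl | rfl
    · exact (h.ends g hg).1
    · exact (h.ends g hg).2
  have hcA : (U \ A).card + 2 = U.card := by
    rw [Finset.card_sdiff_of_subset hAU, hAc]
    have := Finset.card_le_card hAU
    omega
  have h4 := h.four
  have hou : ∀ e ∈ Sr s t D A, ou s t A e ∈ U \ A := by
    intro e he
    obtain ⟨g1, g2, g3, _, g4⟩ := Sr_spec he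
    rw [Finset.mem_sdiff]
    refine ⟨?_, g3⟩
    rcases g4 with g4 | g4
    · rw [← g4.2]; exact (h.ends e g1).2
    · rw [← g4.1]; exact (h.ends e g1).1
  have hDA : (De s t D A).card = 1 := by
    have h1 := h.two A hAU hAc
    have h2 : g ∈ De s t D A := by
      unfold De
      rw [Finset.mem_filter]
      exact ⟨hg, by simp [hA], by simp [hA]⟩
    have h3 := Finset.card_pos.2 ⟨g, h2⟩
    omega
  have hsplit := card_split (A := A) h.ends
  have hcard := h.card
  refine core (U := U) (A' := U \ A) (Finset.card_pos.1 (by omega)) Finset.sdiff_subset De_disj_Sr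
    (fun e he => (Finset.mem_filter.1 he).2) (fun e he => h.ends e (Sr_spec he).1) ?_ ?_
  · refine ind_Sr fun e he e' he' hee => ?_
    obtain ⟨g1, g2, g3, _, g4⟩ := Sr_spec he
    obtain ⟨g1', g2', g3', _, g4'⟩ := Sr_spec he'
    by_contra hne
    have hcW : (insert (ou s t A e) A).card ≤ 3 := by
      have := Finset.card_insert_le (ou s t A e) A
      omega
    refine h.notri g1 g1' hg hne ?_ ?_ (W := insert (ou s t A e) A) hcW ?_ ?_ ?_
    · rintro rfl
      apply g3
      rcases g4 with g4 | g4
      · rw [← g4.2]; simp [hA]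
      · rw [← g4.1]; simp [hA]
    · rintro rfl
      apply g3'
      rcases g4' with g4 | g4
      · rw [← g4.2]; simp [hA]
      · rw [← g4.1]; simp [hA]
    · rcases g4 with g4 | g4 <;> rw [g4.1, g4.2] <;>
        simp only [Finset.mem_insert, true_or, true_and, and_true] <;> exact Or.inr g2
    · rcases g4' with g4 | g4 <;> rw [g4.1, g4.2, ← hee] <;>
        simp only [Finset.mem_insert, true_or, true_and, and_true] <;> exact Or.inr g2'
    · simp [hA]
  · intro R hR
    have hM : spi s t R ≤ spi s t (R ∪ Sr s t D A) := sp_mono Finset.subset_union_left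
    have t2 := coarse (s := s) (t := t) (A := A) (A' := U \ A) (U := U)
      (M1 := spi s t R) (M2 := spi s t (R ∪ Sr s t D A)) (St := Sr s t D A)
      (by rw [Finset.union_sdiff_of_subset hAU]) hM
      (fun e he => ⟨(Sr_spec he).2.1, (Sr_spec he).2.2.2.1,
        mem_sp (x := ic s t) (Finset.mem_union_right _ he)⟩)
    have hXs : ∀ X ∈ cls (spi s t R) (U \ A), X ⊆ U \ A ∧ X ⊆ U ∧ 1 ≤ X.card := by
      intro X hX
      have hXA : X ⊆ U \ A := fun u hu => (cls_mem hX hu).1
      refine ⟨hXA, hXA.trans Finset.sdiff_subset, ?_⟩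
      obtain ⟨u, hu, rfl⟩ := Finset.mem_image.1 hX
      exact Finset.card_pos.2 ⟨u, mem_cl.2 ⟨hu, Rl.refl _ _⟩⟩
    -- the part of `A` which is joined to `X`
    have hB : ∀ X ∈ cls (spi s t R) (U \ A), ∀ B ⊆ A,
        (∀ e ∈ Sr s t D A, ou s t A e ∈ X → iu s t A e ∈ B) →
        (De s t D X).card + kk s t A (Sr s t D A) X + (De s t D B).card ≤
          (De s t D (X ∪ B)).card ∧ (X ∪ B).card = X.card + B.card ∧ X ∪ B ⊆ U := by
      intro X hX B hBA hall
      obtain ⟨x1, x2, x3⟩ := hXs X hX
      have hXA : ∀ v ∈ X, v ∉ A := fun v hv => (Finset.mem_sdiff.1 (x1 hv)).2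
      have j1 := join (s := s) (t := t) (D := D) (A := A) (X := X) (B := B) hXA hBA
      have j2 : kk s t A (Sr s t D A) X =
          ((Sr s t D A).filter (fun e => ou s t A e ∈ X ∧ iu s t A e ∈ B)).card := by
        unfold kk
        congr 1
        ext e
        rw [Finset.mem_filter, Finset.mem_filter]
        exact ⟨fun h => ⟨h.1, h.2, hall e h.1 h.2⟩, fun h => ⟨h.1, h.2.1⟩⟩
      refine ⟨by omega, ?_, Finset.union_subset x2 (hBA.trans hAU)⟩
      exact Finset.card_union_of_disjoint
        (Finset.disjoint_left.2 fun v hv hv' => hXA v hv (hBA hv'))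
    by_cases hsp : ∃ X ∈ cls (spi s t R) (U \ A), X ∪ A = U ∧
        (∃ e ∈ Sr s t D A, ou s t A e ∈ X ∧ iu s t A e = s g) ∧
        ∃ e ∈ Sr s t D A, ou s t A e ∈ X ∧ iu s t A e = t g
    · obtain ⟨X, hX, hXU, ⟨e, he, he1, he2⟩, ⟨e', he', he1', he2'⟩⟩ := hsp
      obtain ⟨x1, x2, x3⟩ := hXs X hX
      have hXeq : X = U \ A := by
        refine Finset.Subset.antisymm x1 fun v hv => ?_
        rw [Finset.mem_sdiff, ← hXU, Finset.mem_union] at hv
        tauto
      have hall : ∀ Y ∈ cls (spi s t R) (U \ A), Y = X := by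
        intro Y hY
        obtain ⟨y1, y2, y3⟩ := hXs Y hY
        obtain ⟨y, hy⟩ := Finset.card_pos.1 y3
        have h1 := cls_mem hY hy
        have h2 : y ∈ X := by rw [hXeq]; exact y1 hy
        exact h1.2.symm.trans (cls_mem hX h2).2
      have c1 : (cls (spi s t R) (U \ A)).card ≤ 1 :=
        Finset.card_le_one.2 fun Y hY Y' hY' => (hall Y hY).trans (hall Y' hY').symm
      have c2 : ((cls (spi s t R) (U \ A)).filter
          (fun X => kk s t A (Sr s t D A) X = 0)).card = 0 := by
        rw [Finset.card_eq_zero, Finset.filter_eq_empty_iff]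
        intro Y hY hk
        rw [hall Y hY] at hk
        unfold kk at hk
        rw [Finset.card_eq_zero, Finset.filter_eq_empty_iff] at hk
        exact hk he he1
      have c3 : (A.image (cl (spi s t (R ∪ Sr s t D A)) U)).card ≤ 1 := by
        have q1 : Rl (spi s t (R ∪ Sr s t D A)) (ou s t A e) (s g) := by
          unfold Rl
          rw [← he2, ← (Sr_spec he).2.2.2.1]
          exact mem_sp (x := ic s t) (Finset.mem_union_right _ he)
        have q2 : Rl (spi s t (R ∪ Sr s t D A)) (ou s t A e') (t g) := by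
          unfold Rl
          rw [← he2', ← (Sr_spec he').2.2.2.1]
          exact mem_sp (x := ic s t) (Finset.mem_union_right _ he')
        have q3 : Rl (spi s t (R ∪ Sr s t D A)) (ou s t A e) (ou s t A e') := by
          refine Rl.mono hM ?_
          have r1 := cls_mem hX he1
          have r2 := cls_mem hX he1'
          exact rl_of_cl r2.1 (r1.2.trans r2.2.symm)
        have q4 : cl (spi s t (R ∪ Sr s t D A)) U (s g) = cl (spi s t (R ∪ Sr s t D A)) U (t g) :=
          cl_eq (q1.symm.trans (q3.trans q2))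
        have q5 : ∀ u ∈ A, cl (spi s t (R ∪ Sr s t D A)) U u =
            cl (spi s t (R ∪ Sr s t D A)) U (t g) := by
          intro u hu
          rw [hA, Finset.mem_insert, Finset.mem_singleton] at hu
          rcases hu with rfl | rfl
          · exact q4
          · rfl
        refine Finset.card_le_one.2 fun a ha b hb => ?_
        obtain ⟨u, hu, rfl⟩ := Finset.mem_image.1 ha
        obtain ⟨v, hv, rfl⟩ := Finset.mem_image.1 hb
        rw [q5 u hu, q5 v hv]
      omega
    · have t1 := total (s := s) (t := t) (D := D) (A := A) (A' := U \ A) (M1 := spi s t R)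
        (St := Sr s t D A) rfl hou (by
          intro X hX
          obtain ⟨x1, x2, x3⟩ := hXs X hX
          by_cases hk : kk s t A (Sr s t D A) X = 0
          · rw [if_pos hk, hk]
            have := h.bd0 x2 x3
            omega
          · rw [if_neg hk]
            by_cases k1 : ∃ e ∈ Sr s t D A, ou s t A e ∈ X ∧ iu s t A e = s g
            · by_cases k2 : ∃ e ∈ Sr s t D A, ou s t A e ∈ X ∧ iu s t A e = t g
              · have hne : X ∪ A ≠ U := fun hXU => hsp ⟨X, hX, hXU, k1, k2⟩
                obtain ⟨b1, b2, b3⟩ := hB X hX A (Finset.Subset.refl _)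
                  (fun e he _ => (Sr_spec he).2.1)
                have b4 := h.many _ b3 hne (by omega)
                omega
              · obtain ⟨b1, b2, b3⟩ := hB X hX {s g} (by simp [hA]) (by
                  intro e he he1
                  have h5 := (Sr_spec he).2.1
                  rw [hA, Finset.mem_insert, Finset.mem_singleton] at h5
                  rw [Finset.mem_singleton]
                  rcases h5 with h5 | h5
                  · exact h5
                  · exact absurd ⟨e, he, he1, h5⟩ k2)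
                rw [Finset.card_singleton] at b2
                have b4 := h.bd1 b3 (by omega)
                omega
            · obtain ⟨b1, b2, b3⟩ := hB X hX {t g} (by simp [hA]) (by
                intro e he he1
                have h5 := (Sr_spec he).2.1
                rw [hA, Finset.mem_insert, Finset.mem_singleton] at h5
                rw [Finset.mem_singleton]
                rcases h5 with h5 | h5
                · exact absurd ⟨e, he, he1, h5⟩ k1
                · exact h5)
              rw [Finset.card_singleton] at b2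
              have b4 := h.bd1 b3 (by omega)
              omega)
      have t3 : (A.image (cl (spi s t (R ∪ Sr s t D A)) U)).card ≤ 2 :=
        Finset.card_image_le.trans hAc.le
      omega

end Pool.Agent.W5h14.Spr
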