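import Pool.Agent.W5h14.Spr.Dec
import Pool.Agent.R890.FF.Min

/-!
# Tight sets can be contracted
-/

set_option autoImplicit false
set_option linter.unusedSectionVars false

namespace Pool.Agent.W5h14.Spr

open Finset Pool.Agent.Helper879.ECD Pool.Agent.TH362.TF Pool.Agent.TH362.TF.Four
open Pool.Agent.R890.FF

variable {V E : Type} [Fintype V] [DecidableEq V] [DecidableEq E]

/-- the edges inside `U` that are not loops -/
def ei (s t : E → V) (S : Finset E) (U : Finset V) : Finset E :=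
  S.filter (fun e => s e ≠ t e ∧ s e ∈ U ∧ t e ∈ U)

section
variable {s t : E → V} {S : Finset E} {U : Finset V}

theorem mem_ei {e : E} : e ∈ ei s t S U ↔ e ∈ S ∧ s e ≠ t e ∧ s e ∈ U ∧ t e ∈ U := by
  unfold ei
  rw [Finset.mem_filter]

/-- solving for the values on `P` -/
theorem solve {Q P : Finset E} (hP : P ⊆ Q) {β : V → ZMod 2}
    (h : β + ∑ e ∈ Q \ P, ic s t e ∈ spi s t P) :
    ∃ ψ : E → ZMod 2, (∀ e, e ∉ P → ψ e = 1) ∧ ∑ e ∈ Q, ψ e • ic s t e = β := by
  obtain ⟨c, hc⟩ := exists_coeff h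
  refine ⟨fun e => if e ∈ P then c e else 1, fun e he => if_neg he, ?_⟩
  rw [← Finset.sum_sdiff hP]
  have h1 : ∑ e ∈ Q \ P, (if e ∈ P then c e else 1) • ic s t e = ∑ e ∈ Q \ P, ic s t e := by
    refine Finset.sum_congr rfl fun e he => ?_
    rw [if_neg (Finset.mem_sdiff.1 he).2, one_smul]
  have h2 : ∑ e ∈ P, (if e ∈ P then c e else 1) • ic s t e = ∑ e ∈ P, c e • ic s t e := by
    refine Finset.sum_congr rfl fun e he => ?_
    rw [if_pos he]
  rw [h1, h2, hc]
  funext v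
  simp only [Pi.add_apply]
  have := z2_self ((∑ e ∈ Q \ P, ic s t e) v)
  linear_combination this

theorem ic_mem_Zs {e : E} (he : e ∈ ei s t S U) : ic s t e ∈ Zs U :=
  dv_mem_Zs (mem_ei.1 he).2.2.1 (mem_ei.1 he).2.2.2

theorem Zs_sdiff {W A : Finset V} (hA : A ⊆ W) {v : V → ZMod 2} (hv : v ∈ Zs W)
    (h0 : ∀ a ∈ A, v a = 0) : v ∈ Zs (W \ A) := by
  refine ⟨fun u hu => ?_, ?_⟩
  · by_cases h1 : u ∈ W
    · by_cases h2 : u ∈ A
      · exact h0 u h2
      · exact absurd (Finset.mem_sdiff.2 ⟨h1, h2⟩) hu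
    · exact hv.1 u h1
  · have h1 := Finset.sum_sdiff hA (f := v)
    rw [Finset.sum_eq_zero h0, add_zero] at h1
    rw [h1]
    exact hv.2

theorem B_eq_ic (Q : Finset E) (ψ : E → ZMod 2) (v : V) :
    B s t Q ψ v = (∑ e ∈ Q, ψ e • ic s t e) v := by
  unfold B
  rw [Finset.sum_apply]
  refine Finset.sum_congr rfl fun e _ => ?_
  rw [Pi.smul_apply, smul_eq_mul, ic, dv_apply, mul_add, mul_ite, mul_ite, mul_one, mul_zero]
  simp only [@eq_comm _ v (s e), @eq_comm _ v (t e)]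

theorem B_fst (Q : Finset E) (φ : E → F) (v : V) :
    (B s t Q φ v).1 = B s t Q (fun e => (φ e).1) v :=
  (B_hom (AddMonoidHom.fst (ZMod 2) (ZMod 2)) s t Q φ v).symm

theorem B_snd (Q : Finset E) (φ : E → F) (v : V) :
    (B s t Q φ v).2 = B s t Q (fun e => (φ e).2) v :=
  (B_hom (AddMonoidHom.snd (ZMod 2) (ZMod 2)) s t Q φ v).symm

theorem B_congr {M : Type} [AddCommMonoid M] {Q : Finset E} {φ ψ : E → M}
    (h : ∀ e ∈ Q, φ e = ψ e) (v : V) : B s t Q φ v = B s t Q ψ v := by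
  unfold B
  exact Finset.sum_congr rfl fun e he => by rw [h e he]

theorem B_split {M : Type} [AddCommMonoid M] {P Q : Finset E} (h : P ⊆ Q) (φ : E → M) (v : V) :
    B s t Q φ v = B s t (Q \ P) φ v + B s t P φ v := by
  unfold B
  exact (Finset.sum_sdiff h).symm

/-- the values outside of `U` are given -/
theorem ext {A : Finset V} (hAU : A ⊆ U) {φ : E → F} (hφ : ∀ e ∈ S, φ e ≠ 0)
    (h1 : ∀ v, v ∉ U → B s t S φ v = 0)
    (h2 : ∑ v ∈ U, B s t (S \ ei s t S U) φ v = 0)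
    {P T : Finset E} (hP : P ⊆ ei s t S U) (hT : T ⊆ ei s t S U) (hd : Disjoint P T)
    (hPs : Zs (U \ A) ≤ spi s t P) (hTs : Zs U ≤ spi s t T)
    (hA : ∀ a ∈ A, (B s t (S \ ei s t S U) φ a).1 + (∑ e ∈ ei s t S U \ P, ic s t e) a = 0) :
    NZ s t S := by
  classical
  set Q := ei s t S U with hQ
  have hQS : Q ⊆ S := Finset.filter_subset _ _
  set b : V → F := fun v => B s t (S \ Q) φ v with hb
  let β1 : V → ZMod 2 := fun v => if v ∈ U then (b v).1 else 0
  let β2 : V → ZMod 2 := fun v => if v ∈ U then (b v).2 else 0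
  have hβ1 : β1 ∈ Zs U := by
    refine ⟨fun u hu => if_neg hu, ?_⟩
    have : ∑ u ∈ U, β1 u = (∑ u ∈ U, b u).1 := by
      rw [Prod.fst_sum]
      exact Finset.sum_congr rfl fun u hu => if_pos hu
    rw [this, h2]
    rfl
  have hβ2 : β2 ∈ Zs U := by
    refine ⟨fun u hu => if_neg hu, ?_⟩
    have : ∑ u ∈ U, β2 u = (∑ u ∈ U, b u).2 := by
      rw [Prod.snd_sum]
      exact Finset.sum_congr rfl fun u hu => if_pos hu
    rw [this, h2]
    rfl
  have hs1 : ∀ P' : Finset E, ∑ e ∈ Q \ P', ic s t e ∈ Zs U := fun P' =>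
    Submodule.sum_mem _ fun e he => ic_mem_Zs (Finset.mem_sdiff.1 he).1
  obtain ⟨ψ1, a1, a2⟩ := solve (s := s) (t := t) hP (β := β1) (by
    apply hPs
    refine Zs_sdiff hAU (Submodule.add_mem _ hβ1 (hs1 P)) fun a ha => ?_
    have := hA a ha
    rw [Pi.add_apply]
    have h3 : β1 a = (B s t (S \ Q) φ a).1 := if_pos (hAU ha)
    rw [h3]
    exact this)
  obtain ⟨ψ2, b1, b2⟩ := solve (s := s) (t := t) hT (β := β2) (by
    apply hTs
    exact Submodule.add_mem _ hβ2 (hs1 T))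
  refine ⟨fun e => if e ∈ Q then (ψ1 e, ψ2 e) else φ e, ?_, ?_⟩
  · intro e he
    by_cases hq : e ∈ Q
    · simp only [hq, if_true]
      intro h3
      have h4 : ψ1 e = 0 := congrArg Prod.fst h3
      have h5 : ψ2 e = 0 := congrArg Prod.snd h3
      by_cases h6 : e ∈ P
      · rw [b1 e (Finset.disjoint_left.1 hd h6)] at h5
        exact one_ne_zero h5
      · rw [a1 e h6] at h4
        exact one_ne_zero h4
    · simp only [hq, if_false]
      exact hφ e he
  · intro v
    show B s t S _ v = 0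
    rw [B_split hQS]
    have e1 : B s t (S \ Q) (fun e => if e ∈ Q then (ψ1 e, ψ2 e) else φ e) v = b v :=
      B_congr (fun e he => if_neg (Finset.mem_sdiff.1 he).2) v
    have e2 : B s t Q (fun e => if e ∈ Q then (ψ1 e, ψ2 e) else φ e) v =
        B s t Q (fun e => ((ψ1 e, ψ2 e) : F)) v := B_congr (fun e he => if_pos he) v
    have e3 : B s t Q (fun e => ((ψ1 e, ψ2 e) : F)) v = (β1 v, β2 v) := by
      refine Prod.ext ?_ ?_
      · rw [B_fst, B_eq_ic, a2]
      · rw [B_snd, B_eq_ic, b2]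
    rw [e1, e2, e3]
    by_cases hv : v ∈ U
    · have h3 : β1 v = (b v).1 := if_pos hv
      have h4 : β2 v = (b v).2 := if_pos hv
      rw [h3, h4]
      exact Prod.ext (z2_self _) (z2_self _)
    · have h3 : β1 v = 0 := if_neg hv
      have h4 : β2 v = 0 := if_neg hv
      rw [h3, h4]
      have h5 : b v = 0 := by
        have h6 := h1 v hv
        rw [B_split hQS] at h6
        have h7 : B s t Q φ v = 0 := by
          unfold B
          refine Finset.sum_eq_zero fun e he => ?_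
          have h8 := mem_ei.1 he
          have h9 : s e ≠ v := by rintro rfl; exact hv h8.2.2.1
          have h10 : t e ≠ v := by rintro rfl; exact hv h8.2.2.2
          rw [if_neg h9, if_neg h10, add_zero]
        rw [h7, add_zero] at h6
        exact h6
      rw [h5]
      rfl

/-- the automorphisms -/
theorem autos : ∀ (x : F) (d : ZMod 2), (d = 0 ∨ x ≠ 0) →
    ∃ α : F →+ F, (∀ y, y ≠ 0 → α y ≠ 0) ∧ (α x).1 = d := by
  let α1 : F →+ F := AddMonoidHom.id F
  let α2 : F →+ F := { toFun := fun x => (x.2, x.1), map_zero' := rfl, map_add' := fun _ _ => rfl }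
  let α3 : F →+ F :=
    { toFun := fun x => (x.1 + x.2, x.2), map_zero' := rfl
      map_add' := by intro x y; ext <;> simp [add_add_add_comm] }
  have k1 : ∀ y : F, y ≠ 0 → α1 y ≠ 0 := fun y hy => hy
  have k2 : ∀ y : F, y ≠ 0 → α2 y ≠ 0 := by
    intro y hy h
    apply hy
    exact Prod.ext (congrArg Prod.snd h) (congrArg Prod.fst h)
  have k3 : ∀ y : F, y ≠ 0 → α3 y ≠ 0 := by
    intro y hy h
    apply hy
    have h1 : y.1 + y.2 = 0 := congrArg Prod.fst h
    have h2 : y.2 = 0 := congrArg Prod.snd h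
    rw [h2, add_zero] at h1
    exact Prod.ext h1 h2
  have key : ∀ (x : F) (d : ZMod 2), (d = 0 ∨ x ≠ 0) → x.1 = d ∨ x.2 = d ∨ x.1 + x.2 = d := by
    decide
  intro x d h
  rcases key x d h with h | h | h
  · exact ⟨α1, k1, h⟩
  · exact ⟨α2, k2, h⟩
  · exact ⟨α3, k3, h⟩

end

end Pool.Agent.W5h14.Spr
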