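import Pool.Agent.W5h14.Spr.Spa

/-!
# Minimal quotients have thirteen vertices of degree three
-/

set_option autoImplicit false
set_option linter.unusedSectionVars false

namespace Pool.Agent.W5h14.Spr

open Finset Pool.Agent.Helper879.ECD Pool.Agent.TH362.TF Pool.Agent.TH362.TF.Four
open Pool.Agent.R890.FF

variable {V E : Type} [Fintype V] [DecidableEq V] [DecidableEq E]
variable {s t : E → V} {S : Finset E}

/-- the number of the edges at `v` that are not loops -/
def dg (s t : E → V) (S : Finset E) (v : V) : ℕ := (cut s t S (fun u => decide (u = v))).card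

theorem mem_cutv {v : V} {e : E} : e ∈ cut s t S (fun u => decide (u = v)) ↔
    e ∈ S ∧ s e ≠ t e ∧ (s e = v ∨ t e = v) := by
  unfold cut
  rw [Finset.mem_filter]
  constructor
  · rintro ⟨h1, h2⟩
    refine ⟨h1, fun h3 => h2 (by rw [h3]), ?_⟩
    by_contra h3
    rw [not_or] at h3
    exact h2 (by simp only [decide_eq_false h3.1, decide_eq_false h3.2])
  · rintro ⟨h1, h2, h3⟩
    refine ⟨h1, fun h4 => ?_⟩
    rcases h3 with h3 | h3
    · have h5 : t e ≠ v := fun h6 => h2 (h3.trans h6.symm)
      simp [h3, h5] at h4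
    · have h5 : s e ≠ v := fun h6 => h2 (h6.trans h3.symm)
      simp [h3, h5] at h4

theorem sum_dg : ∑ v, dg s t S v = 2 * (ei s t S univ).card := by
  have h1 : ∀ v, dg s t S v =
      ∑ e ∈ ei s t S univ, ((if s e = v then 1 else 0) + (if t e = v then 1 else 0)) := by
    intro v
    have h2 : cut s t S (fun u => decide (u = v)) =
        (ei s t S univ).filter (fun e => s e = v ∨ t e = v) := by
      ext e
      rw [mem_cutv, Finset.mem_filter, mem_ei]
      simp only [Finset.mem_univ, and_true, and_assoc]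
    unfold dg
    rw [h2, Finset.card_filter]
    refine Finset.sum_congr rfl fun e he => ?_
    have h3 := (mem_ei.1 he).2.1
    by_cases h4 : s e = v
    · have h5 : t e ≠ v := fun h6 => h3 (h4.trans h6.symm)
      simp [h4, h5]
    · simp [h4]
  rw [Finset.sum_congr rfl fun v _ => h1 v, Finset.sum_comm]
  have h2 : ∀ e ∈ ei s t S univ, ∑ v, ((if s e = v then 1 else 0) + (if t e = v then 1 else 0)) = 2 := by
    intro e _
    rw [Finset.sum_add_distrib, Finset.sum_ite_eq, Finset.sum_ite_eq]
    simp
  rw [Finset.sum_congr rfl h2, Finset.sum_const, smul_eq_mul, mul_comm]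

/-- the number of odd vertices and the number of vertices of degree three -/
theorem odd_three (h : Mq s t S) :
    (odd s t S).card + 8 ≤ 2 * (univ.filter (fun v => dg s t S v = 3)).card := by
  classical
  set W : Finset V := univ.filter (fun v => dg s t S v ≠ 0) with hW
  have hdeg : ∀ v ∈ W, 3 ≤ dg s t S v := by
    intro v hv
    have h1 := (Finset.mem_filter.1 hv).2
    have h2 := h.nb_ne_one v
    have h3 := h.nb_ne_two v
    rw [← h.cut_nb v] at h2 h3
    unfold dg at *
    omega
  have hoddW : odd s t S ⊆ W := by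
    intro v hv
    rw [odd_iff_cut] at hv
    refine Finset.mem_filter.2 ⟨Finset.mem_univ _, fun h1 => ?_⟩
    unfold dg at h1
    rw [h1] at hv
    omega
  have h3W : univ.filter (fun v => dg s t S v = 3) ⊆ W := by
    intro v hv
    have h1 := (Finset.mem_filter.1 hv).2
    exact Finset.mem_filter.2 ⟨Finset.mem_univ _, by omega⟩
  have hei : ei s t S W = ei s t S univ := by
    refine Finset.Subset.antisymm (ei_mono (Finset.subset_univ _)) fun e he => ?_
    have h1 := mem_ei.1 he
    have key : ∀ v, s e = v ∨ t e = v → v ∈ W := by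
      intro v hv
      refine Finset.mem_filter.2 ⟨Finset.mem_univ _, ?_⟩
      unfold dg
      exact Finset.card_ne_zero.2 ⟨e, mem_cutv.2 ⟨h1.1, h1.2.1, hv⟩⟩
    exact mem_ei.2 ⟨h1.1, h1.2.1, key _ (Or.inl rfl), key _ (Or.inr rfl)⟩
  have h18 := h.odd18
  have hWc : 18 ≤ W.card := h18.trans (Finset.card_le_card hoddW)
  have hsp := sparse h W.card W rfl (by omega)
  rw [hei] at hsp
  have hsum : ∑ v ∈ W, dg s t S v = 2 * (ei s t S univ).card := by
    rw [← sum_dg]
    refine Finset.sum_subset (Finset.subset_univ _) fun v _ hv => ?_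
    by_contra h1
    exact hv (Finset.mem_filter.2 ⟨Finset.mem_univ _, h1⟩)
  have hpt : ∀ v ∈ W, 4 + (if v ∈ odd s t S then 1 else 0) ≤
      dg s t S v + 2 * (if dg s t S v = 3 then 1 else 0) := by
    intro v hv
    have h1 := hdeg v hv
    by_cases h2 : v ∈ odd s t S
    · rw [if_pos h2]
      rw [odd_iff_cut] at h2
      have h3 : dg s t S v % 2 = 1 := h2
      by_cases h4 : dg s t S v = 3
      · rw [if_pos h4]; omega
      · rw [if_neg h4]; omega
    · rw [if_neg h2]
      rw [odd_iff_cut] at h2
      have h3 : dg s t S v % 2 ≠ 1 := h2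
      by_cases h4 : dg s t S v = 3
      · omega
      · rw [if_neg h4]; omega
  have h5 := Finset.sum_le_sum hpt
  rw [Finset.sum_add_distrib, Finset.sum_add_distrib, ← Finset.mul_sum, hsum, Finset.sum_const,
    smul_eq_mul] at h5
  have h6 : ∑ v ∈ W, (if v ∈ odd s t S then 1 else 0) = (odd s t S).card := by
    rw [← Finset.card_filter]
    congr 1
    ext v
    rw [Finset.mem_filter]
    exact ⟨fun h => h.2, fun h => ⟨hoddW h, h⟩⟩
  have h7 : ∑ v ∈ W, (if dg s t S v = 3 then 1 else 0) =
      (univ.filter (fun v => dg s t S v = 3)).card := by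
    rw [← Finset.card_filter]
    congr 1
    ext v
    constructor
    · intro h
      exact Finset.mem_filter.2 ⟨Finset.mem_univ _, (Finset.mem_filter.1 h).2⟩
    · intro h
      exact Finset.mem_filter.2 ⟨h3W h, (Finset.mem_filter.1 h).2⟩
  rw [h6, h7] at h5
  omega

theorem thirteen (h : Mq s t S) : 13 ≤ (univ.filter (fun v => dg s t S v = 3)).card := by
  have h1 := odd_three h
  have h2 := h.odd18
  omega

/-- **bridgeless multigraphs without thirteen disjoint sets of vertices which are left by exactly
three edges** -/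
theorem few_three (s t : E → V) (S : Finset E) (h1 : N1 s t S)
    (hm : ¬ ∃ X : Fin 13 → Set V, (∀ i j, i ≠ j → Disjoint (X i) (X j)) ∧
      ∀ i, {e | e ∈ S ∧ ¬ (s e ∈ X i ↔ t e ∈ X i)}.ncard = 3) :
    NZ s t S ∨ PQ s t S := by
  classical
  by_contra hc
  rw [not_or] at hc
  obtain ⟨π, hM⟩ := exists_Mq s t S h1 hc.1 hc.2
  have h13 := thirteen hM
  obtain ⟨T, hT, hTc⟩ := Finset.exists_subset_card_eq h13
  let g : Fin 13 ≃ T := (finCongr hTc.symm).trans T.equivFin.symm
  refine hm ⟨fun i => {v | π v = (g i).1}, fun i j hij => ?_, fun i => ?_⟩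
  · rw [Set.disjoint_left]
    intro v hv hv'
    apply hij
    apply g.injective
    exact Subtype.ext ((show π v = (g i).1 from hv).symm.trans hv')
  · have h2 := (Finset.mem_filter.1 (hT (g i).2)).2
    rw [← h2]
    unfold dg
    rw [← Set.ncard_coe_finset]
    congr 1
    ext e
    rw [Finset.mem_coe]
    unfold cut
    rw [Finset.mem_filter]
    simp only [Set.mem_ofPred_eq, ne_eq, decide_eq_decide]

end Pool.Agent.W5h14.Spr
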