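import Pool.Agent.W5h14.Spr.Pack

/-!
# Incidence vectors, sets of vertices and classes modulo a subspace
-/

set_option autoImplicit false
set_option linter.unusedSectionVars false

namespace Pool.Agent.W5h14.Spr

open Finset Pool.Agent.Helper879.ECD

variable {V E : Type} [Fintype V] [DecidableEq V] [DecidableEq E]

theorem z2_self (a : ZMod 2) : a + a = 0 := CharTwo.add_self_eq_zero a

/-- the sum of two basis vectors -/
def dv (u v : V) : V → ZMod 2 := Pi.single u 1 + Pi.single v 1

theorem dv_self (u : V) : dv u u = 0 := by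
  funext w
  exact z2_self _

theorem dv_comm (u v : V) : dv u v = dv v u := add_comm _ _

theorem dv_add (u v w : V) : dv u v + dv v w = dv u w := by
  funext x
  simp only [dv, Pi.add_apply]
  have := z2_self ((Pi.single v 1 : V → ZMod 2) x)
  linear_combination this

theorem dv_apply (u v w : V) : dv u v w = (if w = u then 1 else 0) + (if w = v then 1 else 0) := by
  simp only [dv, Pi.add_apply, Pi.single_apply]

/-- the incidence vector of an edge -/
def ic (s t : E → V) (e : E) : V → ZMod 2 := dv (s e) (t e)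

/-- the even vectors on `W` -/
def Zs (W : Finset V) : Submodule (ZMod 2) (V → ZMod 2) where
  carrier := {v | (∀ u, u ∉ W → v u = 0) ∧ ∑ u ∈ W, v u = 0}
  add_mem' := by
    rintro a b ⟨h1, h2⟩ ⟨h3, h4⟩
    refine ⟨fun u hu => ?_, ?_⟩
    · rw [Pi.add_apply, h1 u hu, h3 u hu, add_zero]
    · simp only [Pi.add_apply]
      rw [Finset.sum_add_distrib, h2, h4, add_zero]
  zero_mem' := ⟨fun _ _ => rfl, by simp⟩
  smul_mem' := by
    rintro c a ⟨h1, h2⟩
    refine ⟨fun u hu => ?_, ?_⟩
    · rw [Pi.smul_apply, h1 u hu, smul_zero]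
    · simp only [Pi.smul_apply]
      rw [← Finset.smul_sum, h2, smul_zero]

theorem mem_Zs {W : Finset V} {v : V → ZMod 2} :
    v ∈ Zs W ↔ (∀ u, u ∉ W → v u = 0) ∧ ∑ u ∈ W, v u = 0 := Iff.rfl

theorem dv_mem_Zs {W : Finset V} {u v : V} (hu : u ∈ W) (hv : v ∈ W) : dv u v ∈ Zs W := by
  refine ⟨fun w hw => ?_, ?_⟩
  · rw [dv_apply, if_neg (by rintro rfl; exact hw hu), if_neg (by rintro rfl; exact hw hv),
      add_zero]
  · simp only [dv_apply]
    rw [Finset.sum_add_distrib, Finset.sum_ite_eq', Finset.sum_ite_eq', if_pos hu, if_pos hv]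
    exact z2_self 1

/-- an even vector is a combination of pairs -/
theorem Zs_sum {W : Finset V} {v : V → ZMod 2} (hv : v ∈ Zs W) {v0 : V} (h0 : v0 ∈ W) :
    v = ∑ u ∈ W, v u • dv u v0 := by
  funext w
  rw [Finset.sum_apply]
  simp only [Pi.smul_apply, smul_eq_mul, dv_apply, mul_add]
  rw [Finset.sum_add_distrib, ← Finset.sum_mul, hv.2, zero_mul, add_zero]
  by_cases hw : w ∈ W
  · rw [Finset.sum_eq_single w]
    · simp
    · intro u _ huw
      rw [if_neg (Ne.symm huw), mul_zero]
    · intro h; exact absurd hw h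
  · rw [hv.1 w hw]
    symm
    refine Finset.sum_eq_zero fun u hu => ?_
    rw [if_neg (by rintro rfl; exact hw hu), mul_zero]

/-- two vertices are equivalent modulo `M` -/
def Rl (M : Submodule (ZMod 2) (V → ZMod 2)) (u v : V) : Prop := dv u v ∈ M

theorem Rl.refl (M : Submodule (ZMod 2) (V → ZMod 2)) (u : V) : Rl M u u := by
  unfold Rl
  rw [dv_self]
  exact M.zero_mem

theorem Rl.symm {M : Submodule (ZMod 2) (V → ZMod 2)} {u v : V} (h : Rl M u v) : Rl M v u := by
  unfold Rl at *
  rw [dv_comm]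
  exact h

theorem Rl.trans {M : Submodule (ZMod 2) (V → ZMod 2)} {u v w : V} (h : Rl M u v)
    (h' : Rl M v w) : Rl M u w := by
  unfold Rl at *
  rw [← dv_add u v w]
  exact M.add_mem h h'

theorem Rl.mono {M M' : Submodule (ZMod 2) (V → ZMod 2)} (hM : M ≤ M') {u v : V}
    (h : Rl M u v) : Rl M' u v := hM h

open Classical in
/-- the class of a vertex in `W` -/
noncomputable def cl (M : Submodule (ZMod 2) (V → ZMod 2)) (W : Finset V) (u : V) : Finset V :=
  W.filter (fun v => Rl M u v)

theorem mem_cl {M : Submodule (ZMod 2) (V → ZMod 2)} {W : Finset V} {u v : V} :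
    v ∈ cl M W u ↔ v ∈ W ∧ Rl M u v := by
  classical
  unfold cl
  simp only [Finset.mem_filter]

theorem cl_eq {M : Submodule (ZMod 2) (V → ZMod 2)} {W : Finset V} {u v : V} (h : Rl M u v) :
    cl M W u = cl M W v := by
  ext w
  rw [mem_cl, mem_cl]
  exact ⟨fun h' => ⟨h'.1, h.symm.trans h'.2⟩, fun h' => ⟨h'.1, h.trans h'.2⟩⟩

theorem rl_of_cl {M : Submodule (ZMod 2) (V → ZMod 2)} {W : Finset V} {u v : V} (hv : v ∈ W)
    (h : cl M W u = cl M W v) : Rl M u v := by
  have : v ∈ cl M W v := mem_cl.2 ⟨hv, Rl.refl M v⟩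
  rw [← h] at this
  exact (mem_cl.1 this).2

/-- the classes -/
noncomputable def cls (M : Submodule (ZMod 2) (V → ZMod 2)) (W : Finset V) : Finset (Finset V) :=
  W.image (cl M W)

/-- the dimension and the number of classes -/
theorem fin_cls (M : Submodule (ZMod 2) (V → ZMod 2)) {W : Finset V} (hW : W.Nonempty) :
    Module.finrank (ZMod 2) (Zs W) + 1 ≤ Module.finrank (ZMod 2) M + (cls M W).card := by
  classical
  obtain ⟨v0, h0⟩ := hW
  have hrep : ∀ X ∈ cls M W, ∃ u ∈ W, cl M W u = X := by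
    intro X hX
    obtain ⟨u, hu, rfl⟩ := Finset.mem_image.1 hX
    exact ⟨u, hu, rfl⟩
  have : Nonempty V := ⟨v0⟩
  choose! rep hrW hrc using hrep
  set X0 := cl M W v0 with hX0
  have hX0m : X0 ∈ cls M W := Finset.mem_image_of_mem _ h0
  let T : Finset (V → ZMod 2) := ((cls M W).erase X0).image (fun X => dv (rep X) v0)
  have hT : T.card + 1 ≤ (cls M W).card := by
    have h1 : T.card ≤ ((cls M W).erase X0).card := Finset.card_image_le
    rw [Finset.card_erase_of_mem hX0m] at h1
    have h2 : 0 < (cls M W).card := Finset.card_pos.2 ⟨X0, hX0m⟩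
    omega
  have key : ∀ u ∈ W, dv u v0 ∈ M ⊔ Submodule.span (ZMod 2) (T : Set (V → ZMod 2)) := by
    intro u hu
    by_cases h : cl M W u = X0
    · exact Submodule.mem_sup_left (rl_of_cl h0 h)
    · have hm : cl M W u ∈ cls M W := Finset.mem_image_of_mem _ hu
      rw [← dv_add u (rep (cl M W u)) v0]
      refine Submodule.add_mem _ (Submodule.mem_sup_left ?_)
        (Submodule.mem_sup_right (Submodule.subset_span ?_))
      · exact rl_of_cl (hrW _ hm) (hrc _ hm).symm
      · exact Finset.mem_coe.2 (Finset.mem_image.2 ⟨_, Finset.mem_erase.2 ⟨h, hm⟩, rfl⟩)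
  have hle : Zs W ≤ M ⊔ Submodule.span (ZMod 2) (T : Set (V → ZMod 2)) := by
    intro v hv
    rw [Zs_sum hv h0]
    exact Submodule.sum_mem _ fun u hu => Submodule.smul_mem _ _ (key u hu)
  have h1 := Submodule.finrank_mono hle
  have h2 := Submodule.finrank_add_le_finrank_add_finrank M
    (Submodule.span (ZMod 2) (T : Set (V → ZMod 2)))
  have h3 : Module.finrank (ZMod 2) (Submodule.span (ZMod 2) (T : Set (V → ZMod 2))) ≤ T.card :=
    finrank_span_finset_le_card T
  omega

/-- a coarser equivalence has fewer classes -/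
theorem card_image_le_image {α β γ : Type} [DecidableEq β] [DecidableEq γ] (T : Finset α)
    (f : α → β) (g : α → γ) (h : ∀ u ∈ T, ∀ v ∈ T, f u = f v → g u = g v) :
    (T.image g).card ≤ (T.image f).card := by
  classical
  by_cases hT : T = ∅
  · subst hT; simp
  obtain ⟨a0, _⟩ := Finset.nonempty_iff_ne_empty.2 hT
  have : Nonempty α := ⟨a0⟩
  have hrep : ∀ y ∈ T.image f, ∃ u ∈ T, f u = y := fun y hy => Finset.mem_image.1 hy
  choose! rep h1 h2 using hrep
  have : T.image g ⊆ (T.image f).image (fun y => g (rep y)) := by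
    intro z hz
    obtain ⟨u, hu, rfl⟩ := Finset.mem_image.1 hz
    have hy : f u ∈ T.image f := Finset.mem_image_of_mem _ hu
    exact Finset.mem_image.2 ⟨f u, hy, h _ (h1 _ hy) _ hu (h2 _ hy)⟩
  exact (Finset.card_le_card this).trans Finset.card_image_le

end Pool.Agent.W5h14.Spr
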