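import Pool.Agent.Helper879.ECD.Packing

/-!
# Packing an independent set and a set which is independent modulo a third set

The exchange argument of `Helper879/ECD/Packing` for two different linear matroids: the second one
is the contraction of the first one by `N`.
-/

set_option autoImplicit false
set_option linter.unusedSectionVars false

namespace Pool.Agent.W5h14.Spr

open Finset Pool.Agent.Helper879.ECD

variable {F U E : Type} [Field F] [AddCommGroup U] [Module F U] [DecidableEq E] {x : E → U}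

/-- the matroid union theorem for a linear matroid and its contraction by `N` -/
theorem pack3 (G N : Finset E) (hGN : Disjoint G N) (hN : Ind F x N) :
    ∃ I J R : Finset E, I ⊆ G ∧ J ⊆ G ∧ R ⊆ G ∧ Disjoint I J ∧ Ind F x I ∧ Ind F x (J ∪ N) ∧
      sp F x (I ∩ R) = sp F x R ∧ sp F x ((J ∩ R) ∪ N) = sp F x (R ∪ N) ∧
      ∀ e ∈ G, e ∉ R → e ∈ I ∨ e ∈ J := by
  classical
  have hGN' : ∀ g, g ∈ G → g ∉ N := fun g h1 h2 => Finset.disjoint_left.1 hGN h1 h2
  let good : Finset E × Finset E → Prop := fun p => (p.1 ⊆ G ∧ p.2 ⊆ G) ∧ Disjoint p.1 p.2 ∧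
    Ind F x p.1 ∧ Ind F x (p.2 ∪ N)
  have hex : ((G.powerset ×ˢ G.powerset).filter good).Nonempty := by
    refine ⟨(∅, ∅), ?_⟩
    rw [Finset.mem_filter]
    refine ⟨by simp, ?_, ?_, ?_, ?_⟩
    · simp
    · simp
    · unfold Ind; simp
    · simpa using hN
  obtain ⟨p0, hp0, hmax⟩ := Finset.exists_max_image ((G.powerset ×ˢ G.powerset).filter good)
    (fun p => p.1.card + p.2.card) hex
  rw [Finset.mem_filter] at hp0
  have hg0 : good p0 := hp0.2
  set m := p0.1.card + p0.2.card with hm
  have hmax' : ∀ p, good p → p.1.card + p.2.card ≤ m := by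
    intro p hp
    exact hmax p (by
      rw [Finset.mem_filter, Finset.mem_product, Finset.mem_powerset, Finset.mem_powerset]
      exact ⟨hp.1, hp⟩)
  -- good pairs of maximum size span every uncovered element
  have hspan : ∀ p, good p → p.1.card + p.2.card = m → ∀ e, e ∈ G → e ∉ p.1 → e ∉ p.2 →
      x e ∈ sp F x p.1 ∧ x e ∈ sp F x (p.2 ∪ N) := by
    rintro ⟨I, J⟩ ⟨⟨hIG, hJG⟩, hd, hI, hJ⟩ hc e heG heI heJ
    simp only at *
    constructor
    · by_contra hcon
      have := hmax' (insert e I, J) ⟨⟨Finset.insert_subset heG hIG, hJG⟩, by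
        simp only
        rw [Finset.disjoint_insert_left]; exact ⟨heJ, hd⟩, hI.insert hcon, hJ⟩
      simp only at this
      rw [Finset.card_insert_of_notMem heI] at this
      omega
    · by_contra hcon
      have := hmax' (I, insert e J) ⟨⟨hIG, Finset.insert_subset heG hJG⟩, by
        simp only
        rw [Finset.disjoint_insert_right]; exact ⟨heI, hd⟩, hI, by
        simp only
        rw [Finset.insert_union]
        exact hJ.insert hcon⟩
      simp only at this
      rw [Finset.card_insert_of_notMem heJ] at this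
      omega
  let step : Finset E × Finset E → Finset E × Finset E → Prop := fun p q =>
    ∃ e f, e ∈ G ∧ e ∉ p.1 ∧ e ∉ p.2 ∧
      ((f ∈ p.1 ∧ x e ∉ sp F x (p.1.erase f) ∧ q = (insert e (p.1.erase f), p.2)) ∨
       (f ∈ p.2 ∧ x e ∉ sp F x (p.2.erase f ∪ N) ∧ q = (p.1, insert e (p.2.erase f))))
  have hstep_good : ∀ p q, good p → p.1.card + p.2.card = m → step p q →
      good q ∧ q.1.card + q.2.card = m := by
    rintro ⟨I, J⟩ q ⟨⟨hIG, hJG⟩, hd, hI, hJ⟩ hc ⟨e, f, heG, heI, heJ, h⟩
    simp only at *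
    rcases h with ⟨hf, hne, rfl⟩ | ⟨hf, hne, rfl⟩
    · refine ⟨⟨⟨Finset.insert_subset heG ((Finset.erase_subset _ _).trans hIG), hJG⟩, ?_, ?_,
        hJ⟩, ?_⟩
      · simp only
        rw [Finset.disjoint_insert_left]
        exact ⟨heJ, Finset.disjoint_of_subset_left (Finset.erase_subset _ _) hd⟩
      · exact (hI.subset (Finset.erase_subset _ _)).insert hne
      · simp only
        rw [Finset.card_insert_of_notMem (fun h => heI (Finset.mem_of_mem_erase h)),
          Finset.card_erase_of_mem hf]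
        have := Finset.card_pos.2 ⟨f, hf⟩
        omega
    · refine ⟨⟨⟨hIG, Finset.insert_subset heG ((Finset.erase_subset _ _).trans hJG)⟩, ?_, hI,
        ?_⟩, ?_⟩
      · simp only
        rw [Finset.disjoint_insert_right]
        exact ⟨heI, Finset.disjoint_of_subset_right (Finset.erase_subset _ _) hd⟩
      · simp only
        rw [Finset.insert_union]
        exact (hJ.subset (Finset.union_subset_union_left (Finset.erase_subset _ _))).insert hne
      · simp only
        rw [Finset.card_insert_of_notMem (fun h => heJ (Finset.mem_of_mem_erase h)),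
          Finset.card_erase_of_mem hf]
        have := Finset.card_pos.2 ⟨f, hf⟩
        omega
  let Reach : Finset E × Finset E → Prop := fun p => Relation.ReflTransGen step p0 p
  have hreach_good : ∀ p, Reach p → good p ∧ p.1.card + p.2.card = m := by
    intro p hp
    induction hp with
    | refl => exact ⟨hg0, rfl⟩
    | tail _ h ih => exact hstep_good _ _ ih.1 ih.2 h
  obtain ⟨R, hR⟩ : ∃ R : Finset E, ∀ e, e ∈ R ↔ e ∈ G ∧ ∃ p, Reach p ∧ e ∉ p.1 ∧ e ∉ p.2 :=
    ⟨G.filter (fun e => ∃ p, Reach p ∧ e ∉ p.1 ∧ e ∉ p.2), by intro e; simp⟩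
  have hRG : R ⊆ G := fun e he => ((hR e).1 he).1
  have hstR1 : ∀ p, Reach p → ∀ e g, e ∈ G → e ∉ p.1 → e ∉ p.2 → g ∈ p.1 →
      x e ∉ sp F x (p.1.erase g) → g ∈ R := by
    intro p hp e g heG h1 h2 hgI hne
    obtain ⟨hg, hc⟩ := hreach_good p hp
    rw [hR]
    refine ⟨hg.1.1 hgI, (insert e (p.1.erase g), p.2),
      hp.tail ⟨e, g, heG, h1, h2, Or.inl ⟨hgI, hne, rfl⟩⟩, ?_, ?_⟩
    · simp only
      rw [Finset.mem_insert]
      push Not
      exact ⟨fun h => h1 (h ▸ hgI), fun h => absurd rfl (Finset.ne_of_mem_erase h)⟩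
    · exact fun h => Finset.disjoint_left.1 hg.2.1 hgI h
  have hstR2 : ∀ p, Reach p → ∀ e g, e ∈ G → e ∉ p.1 → e ∉ p.2 → g ∈ p.2 →
      x e ∉ sp F x (p.2.erase g ∪ N) → g ∈ R := by
    intro p hp e g heG h1 h2 hgI hne
    obtain ⟨hg, hc⟩ := hreach_good p hp
    rw [hR]
    refine ⟨hg.1.2 hgI, (p.1, insert e (p.2.erase g)),
      hp.tail ⟨e, g, heG, h1, h2, Or.inr ⟨hgI, hne, rfl⟩⟩, ?_, ?_⟩
    · exact fun h => Finset.disjoint_left.1 hg.2.1 h hgI
    · simp only
      rw [Finset.mem_insert]
      push Not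
      exact ⟨fun h => h2 (h ▸ hgI), fun h => absurd rfl (Finset.ne_of_mem_erase h)⟩
  -- an uncovered element is spanned by the part inside `R`
  have hinR : ∀ p, Reach p → ∀ e, e ∈ G → e ∉ p.1 → e ∉ p.2 →
      x e ∈ sp F x (p.1 ∩ R) ∧ x e ∈ sp F x (p.2 ∩ R ∪ N) := by
    intro p hp e heG h1 h2
    obtain ⟨hg, hc⟩ := hreach_good p hp
    obtain ⟨s1, s2⟩ := hspan p hg hc e heG h1 h2
    constructor
    · apply mem_sp_exch hg.2.2.1 s1
      intro g hgI hne
      exact hstR1 p hp e g heG h1 h2 hgI hne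
    · rw [Finset.union_comm (p.2 ∩ R) N, Finset.union_inter_distrib_left, Finset.union_comm N p.2]
      apply mem_sp_exch hg.2.2.2 s2
      intro g hgI hne
      rw [Finset.mem_union]
      by_cases hgN : g ∈ N
      · exact Or.inl hgN
      · right
        rcases Finset.mem_union.1 hgI with hgJ | hgN'
        · refine hstR2 p hp e g heG h1 h2 hgJ ?_
          rw [Finset.erase_union_distrib, Finset.erase_eq_of_notMem hgN] at hne
          exact hne
        · exact absurd hgN' hgN
  have hinv : ∀ p, Reach p → sp F x (p.1 ∩ R) = sp F x (p0.1 ∩ R) ∧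
      sp F x (p.2 ∩ R ∪ N) = sp F x (p0.2 ∩ R ∪ N) := by
    intro p hp
    induction hp with
    | refl => exact ⟨rfl, rfl⟩
    | @tail p q hpp hpq ih =>
      obtain ⟨e, f, heG, h1, h2, h⟩ := hpq
      obtain ⟨hg, hc⟩ := hreach_good p hpp
      have heR : e ∈ R := (hR e).2 ⟨heG, p, hpp, h1, h2⟩
      obtain ⟨t1, t2⟩ := hinR p hpp e heG h1 h2
      rcases h with ⟨hf, hne, rfl⟩ | ⟨hf, hne, rfl⟩
      · refine ⟨?_, ih.2⟩
        rw [← ih.1]
        have hfR : f ∈ R := hstR1 p hpp e f heG h1 h2 hf hne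
        have heq : insert e (p.1.erase f) ∩ R = insert e ((p.1 ∩ R).erase f) := by
          ext g
          simp only [Finset.mem_inter, Finset.mem_insert, Finset.mem_erase]
          constructor
          · rintro ⟨h | h, h'⟩
            · exact Or.inl h
            · exact Or.inr ⟨h.1, h.2, h'⟩
          · rintro (h | h)
            · exact ⟨Or.inl h, h ▸ heR⟩
            · exact ⟨Or.inr ⟨h.1, h.2.1⟩, h.2.2⟩
        simp only
        rw [heq]
        apply sp_exch (Finset.mem_inter.2 ⟨hf, hfR⟩) t1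
        intro hcon
        apply hne
        exact sp_mono (Finset.erase_subset_erase _ Finset.inter_subset_left) hcon
      · refine ⟨ih.1, ?_⟩
        rw [← ih.2]
        have hfR : f ∈ R := hstR2 p hpp e f heG h1 h2 hf hne
        have hfN : f ∉ N := hGN' f (hg.1.2 hf)
        have heq : insert e (p.2.erase f) ∩ R ∪ N = insert e ((p.2 ∩ R ∪ N).erase f) := by
          ext g
          simp only [Finset.mem_inter, Finset.mem_insert, Finset.mem_erase, Finset.mem_union]
          constructor
          · rintro (⟨h | h, h'⟩ | h)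
            · exact Or.inl h
            · exact Or.inr ⟨h.1, Or.inl ⟨h.2, h'⟩⟩
            · exact Or.inr ⟨fun h' => hfN (h' ▸ h), Or.inr h⟩
          · rintro (h | ⟨h, h' | h'⟩)
            · exact Or.inl ⟨Or.inl h, h ▸ heR⟩
            · exact Or.inl ⟨Or.inr ⟨h, h'.1⟩, h'.2⟩
            · exact Or.inr h'
        simp only
        rw [heq]
        apply sp_exch (Finset.mem_union_left _ (Finset.mem_inter.2 ⟨hf, hfR⟩)) t2
        intro hcon
        apply hne
        refine sp_mono ?_ hcon
        rw [Finset.erase_union_distrib, Finset.erase_eq_of_notMem hfN]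
        exact Finset.union_subset_union_left
          (Finset.erase_subset_erase _ Finset.inter_subset_left)
  refine ⟨p0.1, p0.2, R, hg0.1.1, hg0.1.2, hRG, hg0.2.1, hg0.2.2.1, hg0.2.2.2, ?_, ?_, ?_⟩
  · apply le_antisymm (sp_mono Finset.inter_subset_right)
    unfold sp
    rw [Submodule.span_le]
    rintro _ ⟨e, he, rfl⟩
    obtain ⟨heG, p, hp, h1, h2⟩ := (hR e).1 (Finset.mem_coe.1 he)
    have := (hinR p hp e heG h1 h2).1
    rw [(hinv p hp).1] at this
    exact this
  · apply le_antisymm (sp_mono (Finset.union_subset_union_left Finset.inter_subset_right))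
    unfold sp
    rw [Submodule.span_le]
    rintro _ ⟨e, he, rfl⟩
    rcases Finset.mem_union.1 (Finset.mem_coe.1 he) with he | he
    · obtain ⟨heG, p, hp, h1, h2⟩ := (hR e).1 he
      have := (hinR p hp e heG h1 h2).2
      rw [(hinv p hp).2] at this
      exact this
    · exact mem_sp (Finset.mem_union_right _ he)
  · intro e heG heR
    by_contra hcon
    rw [not_or] at hcon
    exact heR ((hR e).2 ⟨heG, p0, Relation.ReflTransGen.refl, hcon.1, hcon.2⟩)

end Pool.Agent.W5h14.Spr
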