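import Pool.Agent.W5h14.Spr.Ext

/-!
# Minimal quotients are sparse
-/

set_option autoImplicit false
set_option linter.unusedSectionVars false

namespace Pool.Agent.W5h14.Spr

open Finset Pool.Agent.Helper879.ECD Pool.Agent.TH362.TF Pool.Agent.TH362.TF.Four
open Pool.Agent.R890.FF

variable {V E : Type} [Fintype V] [DecidableEq V] [DecidableEq E]
variable {s t : E → V} {S : Finset E} {U : Finset V}

theorem f_self (a : F) : a + a = 0 := Prod.ext (z2_self _) (z2_self _)

theorem sum_B (Q : Finset E) (φ : E → F) (U : Finset V) :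
    ∑ v ∈ U, B s t Q φ v = ∑ e ∈ Q, ((if s e ∈ U then φ e else 0) + (if t e ∈ U then φ e else 0)) := by
  unfold B
  rw [Finset.sum_comm]
  refine Finset.sum_congr rfl fun e _ => ?_
  rw [Finset.sum_add_distrib, Finset.sum_ite_eq, Finset.sum_ite_eq]

theorem sum_ic_zero {P : Finset E} {a : V} (h : ∀ e ∈ P, s e ≠ a ∧ t e ≠ a) :
    (∑ e ∈ P, ic s t e) a = 0 := by
  rw [Finset.sum_apply]
  refine Finset.sum_eq_zero fun e he => ?_
  rw [ic, dv_apply, if_neg (fun h1 => (h e he).1 h1.symm), if_neg (fun h1 => (h e he).2 h1.symm),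
    add_zero]

/-- **tight sets do not exist in minimal quotients** -/
theorem no_tight (h : Mq s t S) {D : Finset E} (hD : D ⊆ ei s t S U) (hT : Tight s t D U) :
    False := by
  classical
  have hU4 := hT.four
  obtain ⟨u0, hu0⟩ := Finset.card_pos.1 (show 0 < U.card by omega)
  have hDc := hT.card
  obtain ⟨g, hg⟩ := Finset.card_pos.1 (show 0 < D.card by omega)
  set Q := ei s t S U with hQ
  have hQS : Q ⊆ S := Finset.filter_subset _ _
  set f : V → V := fun v => if v ∈ U then u0 else v with hf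
  have hgm := mem_ei.1 (hD hg)
  obtain ⟨φ, hφ, hc⟩ := h.mn f ⟨g, hgm.1, hgm.2.1, by
    simp only [hf, if_pos hgm.2.2.1, if_pos hgm.2.2.2]⟩
  have h1 : ∀ v, v ∉ U → B s t S φ v = 0 := by
    intro v hv
    have h3 := hc v
    unfold Cons at h3
    unfold B
    refine Eq.trans ?_ h3
    refine Finset.sum_congr rfl fun e _ => ?_
    have h4 : ∀ x, (f x = v) ↔ (x = v) := by
      intro x
      simp only [hf]
      constructor
      · intro h5
        split_ifs at h5 with h6
        · exact absurd (h5 ▸ hu0) hv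
        · exact h5
      · rintro rfl
        rw [if_neg hv]
    simp only [h4]
  have h2 : ∑ v ∈ U, B s t (S \ Q) φ v = 0 := by
    have h3 := hc u0
    unfold Cons at h3
    have h4 : ∀ x, (f x = u0) ↔ (x ∈ U) := by
      intro x
      simp only [hf]
      constructor
      · intro h5
        split_ifs at h5 with h6
        · exact h6
        · exact h5 ▸ hu0
      · intro h5
        rw [if_pos h5]
    simp only [h4] at h3
    rw [← sum_B] at h3
    have h5 : ∑ v ∈ U, B s t S φ v = ∑ v ∈ U, B s t (S \ Q) φ v + ∑ v ∈ U, B s t Q φ v := by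
      rw [← Finset.sum_add_distrib]
      exact Finset.sum_congr rfl fun v _ => B_split hQS φ v
    have h6 : ∑ v ∈ U, B s t Q φ v = 0 := by
      rw [sum_B]
      refine Finset.sum_eq_zero fun e he => ?_
      have h7 := mem_ei.1 he
      rw [if_pos h7.2.2.1, if_pos h7.2.2.2]
      exact f_self _
    rw [h5, h6, add_zero] at h3
    exact h3
  have hDe : ∀ W, De s t D W ⊆ Q := fun W => (Finset.filter_subset _ _).trans hD
  have hSr : ∀ A, Sr s t D A ⊆ Q := fun W => (Finset.filter_subset _ _).trans hD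
  by_cases hcase : ∃ w ∈ U, (∑ e ∈ Q, ic s t e) w = 0 ∨ B s t (S \ Q) φ w ≠ 0
  · obtain ⟨w, hw, hw2⟩ := hcase
    obtain ⟨α, hα, hαw⟩ := autos _ _ hw2
    obtain ⟨I, J, hI, hJ, hIJ, k1, k2⟩ := dec_one hT hw
    have hB : ∀ (Q' : Finset E) (v : V), B s t Q' (fun e => α (φ e)) v = α (B s t Q' φ v) :=
      fun Q' v => B_hom α s t Q' φ v
    refine h.nz (ext (A := {w}) (U := U) (φ := fun e => α (φ e)) (P := I)
      (T := J ∪ Sr s t D {w}) (Finset.singleton_subset_iff.2 hw) (fun e he => hα _ (hφ e he))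
      (fun v hv => by rw [hB, h1 v hv, map_zero]) ?_ (hI.trans (hDe _))
      (Finset.union_subset (hJ.trans (hDe _)) (hSr _)) ?_ k1 k2 ?_)
    · simp only [hB]
      rw [← map_sum, h2, map_zero]
    · rw [Finset.disjoint_union_right]
      exact ⟨hIJ, Finset.disjoint_of_subset_left hI De_disj_Sr⟩
    · intro a ha
      rw [Finset.mem_singleton] at ha
      subst ha
      have h3 : (∑ e ∈ I, ic s t e) a = 0 := sum_ic_zero fun e he => by
        have h4 := (Finset.mem_filter.1 (hI he)).2
        rw [Finset.mem_sdiff, Finset.mem_sdiff, Finset.mem_singleton, Finset.mem_singleton] at h4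
        exact ⟨h4.1.2, h4.2.2⟩
      have h4 := Finset.sum_sdiff (hI.trans (hDe _)) (f := ic s t)
      have h5 := congrFun h4 a
      rw [Pi.add_apply, h3, add_zero] at h5
      rw [hB, hαw, h5]
      exact z2_self _
  · push Not at hcase
    obtain ⟨I, J, hI, hJ, hIJ, k1, k2⟩ := dec_two hT hg
    have hgQ := mem_ei.1 (hD hg)
    have hgI : g ∉ I := fun h3 => by
      have h4 := (Finset.mem_filter.1 (hI h3)).2.1
      rw [Finset.mem_sdiff] at h4
      exact h4.2 (by simp)
    have hgJ : g ∉ J := fun h3 => by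
      have h4 := (Finset.mem_filter.1 (hJ h3)).2.1
      rw [Finset.mem_sdiff] at h4
      exact h4.2 (by simp)
    have hgS : g ∉ Sr s t D {s g, t g} := fun h3 => by
      have h4 := (Finset.mem_filter.1 h3).2
      exact h4 ⟨fun _ => by simp, fun _ => by simp⟩
    have hPQ : insert g I ⊆ Q := Finset.insert_subset (hD hg) (hI.trans (hDe _))
    refine h.nz (ext (A := {s g, t g}) (U := U) (φ := φ) (P := insert g I)
      (T := J ∪ Sr s t D {s g, t g}) ?_ hφ h1 h2 hPQ
      (Finset.union_subset (hJ.trans (hDe _)) (hSr _)) ?_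
      (k1.trans (sp_mono (Finset.subset_insert _ _))) k2 ?_)
    · intro v hv
      rw [Finset.mem_insert, Finset.mem_singleton] at hv
      rcases hv with rfl | rfl
      · exact hgQ.2.2.1
      · exact hgQ.2.2.2
    · rw [Finset.disjoint_insert_left, Finset.disjoint_union_right, Finset.mem_union]
      exact ⟨fun h3 => h3.elim hgJ hgS, hIJ, Finset.disjoint_of_subset_left hI De_disj_Sr⟩
    · intro a ha
      have haU : a ∈ U := by
        rw [Finset.mem_insert, Finset.mem_singleton] at ha
        rcases ha with rfl | rfl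
        · exact hgQ.2.2.1
        · exact hgQ.2.2.2
      obtain ⟨h3, h4⟩ := hcase a haU
      have h5 : (∑ e ∈ Q, ic s t e) a = 1 := (f2_or _).resolve_left h3
      have h6 : (∑ e ∈ I, ic s t e) a = 0 := sum_ic_zero fun e he => by
        have h4 := (Finset.mem_filter.1 (hI he)).2
        rw [Finset.mem_sdiff, Finset.mem_sdiff] at h4
        exact ⟨fun h => h4.1.2 (h ▸ ha), fun h => h4.2.2 (h ▸ ha)⟩
      have h7 : ic s t g a = 1 := by
        rw [ic, dv_apply]
        rw [Finset.mem_insert, Finset.mem_singleton] at ha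
        rcases ha with rfl | rfl
        · rw [if_pos rfl, if_neg hgQ.2.1, add_zero]
        · rw [if_neg (Ne.symm hgQ.2.1), if_pos rfl, zero_add]
      have h8 := congrFun (Finset.sum_sdiff hPQ (f := ic s t)) a
      rw [Finset.sum_insert hgI, Pi.add_apply, Pi.add_apply, h6, h7, h5, add_zero] at h8
      rw [h4]
      have h10 : ((0 : F).1 : ZMod 2) = 0 := rfl
      rw [h10, zero_add]
      linear_combination h8
where
  f2_or : ∀ a : ZMod 2, a = 0 ∨ a = 1 := by decide

theorem ei_mono {W U : Finset V} (h : W ⊆ U) : ei s t S W ⊆ ei s t S U := by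
  intro e he
  rw [mem_ei] at he ⊢
  exact ⟨he.1, he.2.1, h he.2.2.1, h he.2.2.2⟩

theorem ends_of_pair {a b : V} {e : E} (he : e ∈ ei s t S {a, b}) :
    e ∈ S ∧ a ≠ b ∧ Ends s t a b e := by
  rw [mem_ei] at he
  simp only [Finset.mem_insert, Finset.mem_singleton] at he
  obtain ⟨h1, h2, h3, h4⟩ := he
  rcases h3 with h3 | h3 <;> rcases h4 with h4 | h4
  · exact absurd (h3.trans h4.symm) h2
  · exact ⟨h1, fun h => h2 (h3.trans (h.trans h4.symm)), Or.inl ⟨h3, h4⟩⟩
  · exact ⟨h1, fun h => h2 (h3.trans (h.symm.trans h4.symm)), Or.inr ⟨h3, h4⟩⟩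
  · exact absurd (h3.trans h4.symm) h2

theorem ei_two (h : Mq s t S) {W : Finset V} (hW : W.card = 2) : (ei s t S W).card ≤ 1 := by
  obtain ⟨a, b, _, rfl⟩ := Finset.card_eq_two.1 hW
  refine Finset.card_le_one.2 fun e he e' he' => ?_
  obtain ⟨h1, h2, h3⟩ := ends_of_pair he
  obtain ⟨h4, _, h5⟩ := ends_of_pair he'
  exact h.nopar h2 h1 h4 h3 h5

theorem ei_three (h : Mq s t S) {W : Finset V} (hW : W.card = 3) : (ei s t S W).card ≤ 2 := by
  obtain ⟨a, b, c, hab, hac, hbc, rfl⟩ := Finset.card_eq_three.1 hW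
  by_contra hcon
  have h1 : ei s t S {a, b, c} ⊆ ei s t S {a, b} ∪ ei s t S {b, c} ∪ ei s t S {c, a} := by
    intro e he
    simp only [Finset.mem_union, mem_ei, Finset.mem_insert, Finset.mem_singleton] at he ⊢
    obtain ⟨h1, h2, h3, h4⟩ := he
    rcases h3 with h3 | h3 | h3 <;> rcases h4 with h4 | h4 | h4 <;>
      first
        | exact absurd (h3.trans h4.symm) h2
        | (refine Or.inl (Or.inl ⟨h1, h2, ?_, ?_⟩) <;> (first | (left; assumption) | (right; assumption)))
        | (refine Or.inl (Or.inr ⟨h1, h2, ?_, ?_⟩) <;> (first | (left; assumption) | (right; assumption)))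
        | (refine Or.inr ⟨h1, h2, ?_, ?_⟩ <;> (first | (left; assumption) | (right; assumption)))
  have h2 := Finset.card_le_card h1
  have h3 := Finset.card_union_le (ei s t S {a, b} ∪ ei s t S {b, c}) (ei s t S {c, a})
  have h4 := Finset.card_union_le (ei s t S {a, b}) (ei s t S {b, c})
  have h5 := ei_two h (Finset.card_pair hab)
  have h6 := ei_two h (Finset.card_pair hbc)
  have h7 := ei_two h (Finset.card_pair (Ne.symm hac))
  obtain ⟨e1, he1⟩ := Finset.card_pos.1 (show 0 < (ei s t S {a, b}).card by omega)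
  obtain ⟨e2, he2⟩ := Finset.card_pos.1 (show 0 < (ei s t S {b, c}).card by omega)
  obtain ⟨e3, he3⟩ := Finset.card_pos.1 (show 0 < (ei s t S {c, a}).card by omega)
  obtain ⟨g1, _, g1'⟩ := ends_of_pair he1
  obtain ⟨g2, _, g2'⟩ := ends_of_pair he2
  obtain ⟨g3, _, g3'⟩ := ends_of_pair he3
  exact h.notri hab hac hbc g1 g2 g3 g1' g2' g3'

/-- **minimal quotients are sparse** -/
theorem sparse (h : Mq s t S) : ∀ (n : ℕ) (U : Finset V), U.card = n → 3 ≤ n →
    (ei s t S U).card + 4 ≤ 2 * n := by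
  classical
  intro n
  induction n using Nat.strong_induction_on with
  | _ n ih =>
  intro U hU hn
  by_contra hcon
  by_cases h3 : n = 3
  · have := ei_three h (hU.trans h3)
    omega
  obtain ⟨D, hD, hDc⟩ := Finset.exists_subset_card_eq (show 2 * n - 3 ≤ (ei s t S U).card by omega)
  have hDe : ∀ W, De s t D W ⊆ ei s t S W := by
    intro W e he
    obtain ⟨h1, h2, h4⟩ := Finset.mem_filter.1 he
    have h5 := mem_ei.1 (hD h1)
    exact mem_ei.2 ⟨h5.1, h5.2.1, h2, h4⟩
  refine no_tight h hD ⟨by omega, fun e he => (mem_ei.1 (hD he)).2.2,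
    fun e he => (mem_ei.1 (hD he)).2.1, by omega, fun W _ hW => ?_, fun W hW hne hW3 => ?_⟩
  · exact (Finset.card_le_card (hDe W)).trans (ei_two h hW)
  · have h4 : W.card < n := by
      rw [← hU]
      exact Finset.card_lt_card (Finset.ssubset_iff_subset_ne.2 ⟨hW, hne⟩)
    have h5 := ih W.card h4 W rfl hW3
    have h6 := Finset.card_le_card (hDe W)
    omega

end Pool.Agent.W5h14.Spr
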